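import Pool.Agent.Q23.EG.UnitG
import Pool.Agent.Q23.EF.Final

/-!
# The choice of the parameters
-/

set_option autoImplicit false

namespace Pool.Agent.Q23.EG

open Finset Polynomial Pool.Agent.Y18.GX Pool.Agent.H178.GC Pool.Agent.Q23.EF

/-- the part of `n` at the primes of `Q` -/
lemma part_cop {n Q : ℕ} (hn : n ≠ 0) : (n / Nat.gcd n (Q ^ n)).Coprime Q := by
  rw [Nat.coprime_iff_gcd_eq_one]
  by_contra hcon
  obtain ⟨ℓ, hℓ, hℓg⟩ := Nat.exists_prime_and_dvd hcon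
  have h1 := hℓg.trans (Nat.gcd_dvd_left _ _)
  have h2 := hℓg.trans (Nat.gcd_dvd_right _ _)
  set E := Nat.gcd n (Q ^ n) with hE
  have hEn : E ∣ n := Nat.gcd_dvd_left _ _
  have hE0 : E ≠ 0 := fun h => hn (Nat.eq_zero_of_zero_dvd (h ▸ hEn))
  -- `ℓ ^ v` divides both
  set v := n.factorization ℓ with hv
  have hvn : v ≤ n := (Nat.factorization_lt ℓ hn).le
  have h3 : ℓ ^ v ∣ E := by
    refine Nat.dvd_gcd (Nat.ordProj_dvd n ℓ) ?_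
    exact (pow_dvd_pow ℓ hvn).trans (pow_dvd_pow_of_dvd h2 n)
  have h4 : ℓ ^ (v + 1) ∣ n := by
    obtain ⟨c, hc⟩ := hEn
    have h5 : n / E = c := by
      rw [hc]
      exact Nat.mul_div_cancel_left c (Nat.pos_of_ne_zero hE0)
    rw [h5] at h1
    rw [pow_succ, hc]
    exact Nat.mul_dvd_mul h3 h1
  have h5 := (hℓ.pow_dvd_iff_le_factorization hn).1 h4
  omega

lemma prod_primes_dvd {M D₀ : ℕ} (hD : D₀ ≠ 0) (h : ∀ ℓ : ℕ, ℓ.Prime → ℓ ∣ M → ℓ ∣ D₀) :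
    ∏ ℓ ∈ M.primeFactors, ℓ ∣ D₀ := by
  refine dvd_trans ?_ (Nat.prod_primeFactors_dvd D₀)
  apply Finset.prod_dvd_prod_of_subset
  intro ℓ hℓ
  rw [Nat.mem_primeFactors] at hℓ ⊢
  exact ⟨hℓ.1, h ℓ hℓ.1 hℓ.2.1, hD⟩

/-- a good modulus for the size of the group -/
lemma exists_R {M E D₀ : ℕ} (hM0 : M ≠ 0) (hD : D₀ ≠ 0) (hEM : E ∣ M) (h4 : 2 ∣ M → 4 ∣ E)
    (h : ∀ ℓ : ℕ, ℓ.Prime → ℓ ∣ M → ℓ ∣ D₀) :
    ∃ R : ℕ, R ∣ M ∧ (∀ ℓ : ℕ, ℓ.Prime → ℓ ∣ M → ℓ ∣ R) ∧ (2 ∣ M → 4 ∣ R) ∧ R ∣ 2 * D₀ := by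
  have hmem : ∀ ℓ : ℕ, ℓ.Prime → ℓ ∣ M → ℓ ∣ ∏ ℓ ∈ M.primeFactors, ℓ := fun ℓ hℓ hℓM =>
    Finset.dvd_prod_of_mem _ (Nat.mem_primeFactors.2 ⟨hℓ, hℓM, hM0⟩)
  by_cases h2 : 2 ∣ M
  · refine ⟨Nat.lcm (∏ ℓ ∈ M.primeFactors, ℓ) 4, Nat.lcm_dvd (Nat.prod_primeFactors_dvd M) ((h4 h2).trans hEM),
      fun ℓ hℓ hℓM => (hmem ℓ hℓ hℓM).trans (Nat.dvd_lcm_left _ _), fun _ => Nat.dvd_lcm_right _ _, ?_⟩
    have h2D := h 2 Nat.prime_two h2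
    refine Nat.lcm_dvd ((prod_primes_dvd hD h).mul_left 2) ?_
    exact Nat.mul_dvd_mul_left 2 h2D
  · exact ⟨∏ ℓ ∈ M.primeFactors, ℓ, Nat.prod_primeFactors_dvd M, hmem, fun h5 => absurd h5 h2,
      (prod_primes_dvd hD h).mul_left 2⟩

lemma even_tot {n : ℕ} (hn : 2 < n) : 2 * (n.totient / 2) = n.totient := by
  obtain ⟨v, hv⟩ := Nat.totient_even hn
  omega

/-- a divisor `ℓ ^ i` of `q ^ h - 1` divides `(q - 1) h` -/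
lemma lte_dvd {ℓ : ℕ} (hℓ : ℓ.Prime) {q : ℕ} (hq : 1 < q) (h1 : ℓ ∣ q - 1) (h4 : ℓ = 2 → 4 ∣ q - 1) (h i : ℕ)
    (hd : ℓ ^ i ∣ q ^ h - 1) : ℓ ^ i ∣ (q - 1) * h := by
  have hc : ((q - 1 : ℕ) : ℤ) = (q : ℤ) - 1 := by
    rw [Nat.cast_sub hq.le]
    push_cast
    ring
  have hqh : 1 ≤ q ^ h := Nat.one_le_pow _ _ (by omega)
  have hc2 : ((q ^ h - 1 : ℕ) : ℤ) = (q : ℤ) ^ h - 1 := by
    rw [Nat.cast_sub hqh]
    push_cast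
    ring
  have h1' : (ℓ : ℤ) ∣ (q : ℤ) - 1 := by
    rw [← hc]
    exact_mod_cast h1
  have h4' : ℓ = 2 → (4 : ℤ) ∣ (q : ℤ) - 1 := by
    intro h
    rw [← hc]
    exact_mod_cast h4 h
  have h5 := lte hℓ h1' h4' h
  have hp : Prime (ℓ : ℤ) := Nat.prime_iff_prime_int.1 hℓ
  have hd' : ((ℓ : ℤ)) ^ i ∣ (q : ℤ) ^ h - 1 := by
    rw [← hc2]
    exact_mod_cast hd
  rw [pow_dvd_iff_le_emultiplicity, h5, ← emultiplicity_mul hp, ← pow_dvd_iff_le_emultiplicity] at hd'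
  rw [← hc] at hd'
  exact_mod_cast hd'

/-- the parameters for a level with large prime powers -/
theorem params {p : ℕ} (hp : p.Prime) {D₀ N₁ W₁ Q g₀ : ℕ} (hg₀ : g₀ ≠ 0)
    (h2D : 2 * D₀ ∣ p ^ g₀ - 1) (hφD : D₀.totient ∣ p ^ g₀ - 1) (hN0 : N₁ ≠ 0) (hpN : ¬ p ∣ N₁.totient)
    (hW0 : W₁ ≠ 0) (hQ1 : Q ≠ 1) (hQ0 : Q ≠ 0) (hNW : N₁.Coprime W₁) (hcop : W₁.Coprime Q)
    (hW₁ : ∀ ℓ : ℕ, ℓ.Prime → ℓ ∣ W₁ → ℓ ∣ D₀) (hQ : ∀ ℓ : ℕ, ℓ.Prime → ℓ ∣ Q → ℓ ∣ D₀)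
    (hbig : ∀ ℓ : ℕ, ℓ.Prime → ℓ ∣ Q →
      ((2 * D₀ * p ^ (g₀ + 1) * N₁ ^ 2) * W₁) ^ ((2 * D₀).totient / 2 + 1) < ℓ ^ Q.factorization ℓ) :
    ∃ g u M E : ℕ, Num (p ^ g) u M E Q ∧
      (∀ x : ℕ, x.Coprime (N₁ * W₁) → x ^ (p ^ g - 1) ≡ 1 [MOD N₁ * W₁]) ∧
      (∀ ℓ : ℕ, ℓ.Prime → ℓ ∣ M → ∀ m : ℕ, m ≤ p - 1 →
        ((2 * D₀).totient / 2 * (m * (N₁ * W₁ * E))) ^ ((2 * D₀).totient / 2) *
        M.primeFactors.card * (if ℓ = 2 then 2 else 1) < ℓ ^ M.factorization ℓ) := by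
  have hq00 : 1 < p ^ g₀ := Nat.one_lt_pow hg₀ hp.one_lt
  have hD0 : D₀ ≠ 0 := by
    rintro rfl
    rw [mul_zero, zero_dvd_iff] at h2D
    omega
  obtain ⟨ℓ₀, hℓ₀, hℓ₀Q⟩ := Nat.exists_prime_and_dvd hQ1
  have hD2 : 2 ≤ D₀ := hℓ₀.two_le.trans (Nat.le_of_dvd (Nat.pos_of_ne_zero hD0) (hQ ℓ₀ hℓ₀ hℓ₀Q))
  set h := N₁.totient.totient with hh
  set q₀ := p ^ g₀ with hq₀
  set q₁ := q₀ ^ h with hq₁
  set f := (2 * D₀).totient / 2 with hf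
  set K₀ := 2 * D₀ * p ^ (g₀ + 1) * N₁ ^ 2 with hK₀
  have hf2 := even_tot (n := 2 * D₀) (by omega)
  have hf0 : 0 < f := by
    have := Nat.totient_pos.2 (show 0 < 2 * D₀ by omega)
    omega
  have hfD : f ≤ D₀ := by
    have := Nat.totient_le (2 * D₀)
    omega
  have hD1 : 1 ≤ D₀ := by omega
  have hN1 : 1 ≤ N₁ := Nat.pos_of_ne_zero hN0
  have hW1 : 1 ≤ W₁ := Nat.pos_of_ne_zero hW0
  have hφ0 : 0 < N₁.totient := Nat.totient_pos.2 hN1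
  have hh0 : 0 < h := Nat.totient_pos.2 hφ0
  have hhN : h ≤ N₁ := (Nat.totient_le _).trans (Nat.totient_le _)
  have hq1 : 1 < q₀ := hq00
  have hqq : 1 < q₁ := Nat.one_lt_pow hh0.ne' hq1
  -- divisors of `q₀ - 1` divide `q₁ - 1`
  have hq01 : q₀ - 1 ∣ q₁ - 1 := by
    have h1 := pow_sub_one_geom q₀ h hq1.le
    rw [h1]
    exact Dvd.intro _ rfl
  have hDq : D₀ ∣ q₀ - 1 := (Dvd.intro_left 2 rfl).trans h2D
  have h4q : 2 ∣ D₀ → 4 ∣ q₀ - 1 := fun h5 => (Nat.mul_dvd_mul_left 2 h5).trans h2D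
  set n := q₁ - 1 with hn
  have hn0 : n ≠ 0 := by omega
  have hn2 : 2 ≤ n := by
    have h5 : 2 ∣ n := (Dvd.intro _ rfl : 2 ∣ 2 * D₀).trans (h2D.trans hq01)
    exact Nat.le_of_dvd (Nat.pos_of_ne_zero hn0) h5
  have h2n : 2 ∣ n := (Dvd.intro _ rfl : 2 ∣ 2 * D₀).trans (h2D.trans hq01)
  set E := Nat.gcd n (Q ^ n) with hE
  have hEn : E ∣ n := Nat.gcd_dvd_left _ _
  have hE0 : 0 < E := Nat.gcd_pos_of_pos_left _ (Nat.pos_of_ne_zero hn0)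
  have hEp : ∀ ℓ : ℕ, ℓ.Prime → ℓ ∣ E → ℓ ∣ Q := fun ℓ hℓ h =>
    hℓ.dvd_of_dvd_pow (h.trans (Nat.gcd_dvd_right _ _))
  have hQE : ∀ ℓ : ℕ, ℓ.Prime → ℓ ∣ Q → ℓ ∣ E := fun ℓ hℓ h =>
    Nat.dvd_gcd ((hQ ℓ hℓ h).trans (hDq.trans hq01)) (dvd_pow h hn0)
  -- `E` divides `(q₀ - 1) h`
  have hEh : E ∣ (q₀ - 1) * h := by
    rw [Nat.dvd_iff_prime_pow_dvd_dvd]
    intro ℓ i hℓ hi
    rcases Nat.eq_zero_or_pos i with hi0 | hi0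
    · subst hi0
      simp
    · have h5 : ℓ ∣ E := (dvd_pow_self ℓ (by omega)).trans hi
      have h6 := hQ ℓ hℓ (hEp ℓ hℓ h5)
      refine lte_dvd hℓ hq1 (h6.trans hDq) (fun h7 => h4q (h7 ▸ h6)) h i (hi.trans ?_)
      exact hEn
  have hElt : E ≤ q₀ * N₁ := by
    have h5 := Nat.le_of_dvd (Nat.mul_pos (by omega) hh0) hEh
    exact h5.trans (Nat.mul_le_mul (Nat.sub_le _ _) hhN)
  obtain ⟨u₀, hu₀⟩ := hEn
  have hu₀c : u₀.Coprime Q := by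
    have h := part_cop (n := n) (Q := Q) hn0
    rw [← hE] at h
    have h1 : n / E = u₀ := by
      rw [hu₀]
      exact Nat.mul_div_cancel_left _ hE0
    rwa [h1] at h
  have hpK : q₀ * p = p ^ (g₀ + 1) := by rw [pow_succ]
  have hK1 : 2 * D₀ * (q₀ * N₁) ≤ K₀ := by
    rw [hK₀, ← hpK]
    calc 2 * D₀ * (q₀ * N₁) = 2 * D₀ * (q₀ * 1) * (N₁ * 1) := by ring
      _ ≤ 2 * D₀ * (q₀ * p) * (N₁ * N₁) :=
        Nat.mul_le_mul (Nat.mul_le_mul_left _ (Nat.mul_le_mul_left _ hp.pos)) (Nat.mul_le_mul_left _ hN1)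
      _ = 2 * D₀ * (q₀ * p) * N₁ ^ 2 := by ring
  have hKq : q₀ * N₁ ≤ K₀ := le_trans (Nat.le_mul_of_pos_left _ (by omega)) hK1
  have hK0 : 0 < K₀ := lt_of_lt_of_le (Nat.mul_pos (by omega) hN1) hKq
  have hKN : K₀ ≤ K₀ * W₁ := Nat.le_mul_of_pos_right _ hW1
  -- `E ^ 2` divides `Q`
  have hE2 : E * E ∣ Q := by
    rw [← Nat.factorization_prime_le_iff_dvd (by positivity) hQ0]
    intro ℓ hℓ
    rw [Nat.factorization_mul hE0.ne' hE0.ne', Finsupp.add_apply]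
    by_cases h : ℓ ∣ E
    · have h1 := hbig ℓ hℓ (hEp ℓ hℓ h)
      have h2 : ℓ ^ (E.factorization ℓ + E.factorization ℓ) ≤ E * E := by
        rw [pow_add]
        have := Nat.le_of_dvd hE0 (Nat.ordProj_dvd E ℓ)
        exact Nat.mul_le_mul this this
      have h3 : E * E ≤ (K₀ * W₁) ^ (f + 1) := by
        calc E * E ≤ (K₀ * W₁) * (K₀ * W₁) := Nat.mul_le_mul (by omega) (by omega)
          _ = (K₀ * W₁) ^ 2 := (sq _).symm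
          _ ≤ (K₀ * W₁) ^ (f + 1) := Nat.pow_le_pow_right (by omega) (by omega)
      exact ((Nat.pow_lt_pow_iff_right hℓ.one_lt).1 (lt_of_le_of_lt (h2.trans h3) h1)).le
    · rw [Nat.factorization_eq_zero_of_not_dvd h]
      omega
  obtain ⟨M, hM⟩ : ∃ M, Q = M * E := by
    obtain ⟨v, hv⟩ := hE2
    exact ⟨E * v, by rw [hv]; ring⟩
  have hM0 : M ≠ 0 := by
    rintro rfl
    rw [zero_mul] at hM
    exact hQ0 hM
  have hEM : E ∣ M := by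
    rw [hM] at hE2
    exact Nat.dvd_of_mul_dvd_mul_right hE0 hE2
  have hMQ : M ∣ Q := ⟨E, hM⟩
  -- the size
  have hkey : ∀ ℓ : ℕ, ℓ.Prime → ℓ ∣ M → ∀ m : ℕ, m ≤ p - 1 → (f * (m * (N₁ * W₁ * E))) ^ f *
        M.primeFactors.card * (if ℓ = 2 then 2 else 1) < ℓ ^ M.factorization ℓ := by
    intro ℓ hℓ hℓM m hm
    have hℓQ := hℓM.trans hMQ
    have h1 := hbig ℓ hℓ hℓQ
    have h2 : Q.factorization ℓ = M.factorization ℓ + E.factorization ℓ := by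
      rw [hM, Nat.factorization_mul hM0 hE0.ne', Finsupp.add_apply]
    rw [h2, pow_add ℓ] at h1
    have h3 : ℓ ^ E.factorization ℓ ≤ q₀ * N₁ := (Nat.le_of_dvd hE0 (Nat.ordProj_dvd E ℓ)).trans hElt
    have h4 : (K₀ * W₁) ^ (f + 1) < ℓ ^ M.factorization ℓ * (q₀ * N₁) :=
      lt_of_lt_of_le h1 (Nat.mul_le_mul_left _ h3)
    -- the number of primes
    have h5 : M.primeFactors.card ≤ D₀ := by
      have h6 : M.primeFactors ⊆ D₀.primeFactors := by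
        intro ℓ' hℓ'
        rw [Nat.mem_primeFactors] at hℓ' ⊢
        exact ⟨hℓ'.1, hQ ℓ' hℓ'.1 (hℓ'.2.1.trans hMQ), hD0⟩
      refine (card_le_card h6).trans ?_
      have h7 : D₀.primeFactors ⊆ Finset.Icc 1 D₀ := by
        intro ℓ' hℓ'
        rw [Nat.mem_primeFactors] at hℓ'
        rw [mem_Icc]
        exact ⟨hℓ'.1.one_lt.le, Nat.le_of_dvd hD1 hℓ'.2.1⟩
      have h8 := card_le_card h7
      rwa [Nat.card_Icc, Nat.add_sub_cancel] at h8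
    have h6 : f * (m * (N₁ * W₁ * E)) ≤ K₀ * W₁ := by
      calc f * (m * (N₁ * W₁ * E)) ≤ D₀ * (p * (N₁ * W₁ * (q₀ * N₁))) :=
            Nat.mul_le_mul hfD (Nat.mul_le_mul (by omega) (Nat.mul_le_mul_left _ hElt))
        _ = D₀ * (q₀ * p) * N₁ ^ 2 * W₁ := by ring
        _ ≤ K₀ * W₁ := by
          apply Nat.mul_le_mul_right
          rw [hpK, hK₀]
          exact Nat.mul_le_mul_right _ (Nat.mul_le_mul_right _ (by omega))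
    have h7 : (q₀ * N₁) * (M.primeFactors.card * (if ℓ = 2 then 2 else 1)) ≤ K₀ * W₁ := by
      have h8 : (if ℓ = 2 then 2 else 1) ≤ 2 := by split_ifs <;> norm_num
      calc (q₀ * N₁) * (M.primeFactors.card * (if ℓ = 2 then 2 else 1)) ≤ (q₀ * N₁) * (D₀ * 2) :=
            Nat.mul_le_mul_left _ (Nat.mul_le_mul h5 h8)
        _ = 2 * D₀ * (q₀ * N₁) := by ring
        _ ≤ K₀ := hK1
        _ ≤ K₀ * W₁ := hKN
    have h8 : (q₀ * N₁) * ((f * (m * (N₁ * W₁ * E))) ^ f * M.primeFactors.card * (if ℓ = 2 then 2 else 1)) <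
        (q₀ * N₁) * ℓ ^ M.factorization ℓ := by
      calc (q₀ * N₁) * ((f * (m * (N₁ * W₁ * E))) ^ f * M.primeFactors.card * (if ℓ = 2 then 2 else 1))
          = (f * (m * (N₁ * W₁ * E))) ^ f * ((q₀ * N₁) * (M.primeFactors.card * (if ℓ = 2 then 2 else 1))) := by
            ring
        _ ≤ (K₀ * W₁) ^ f * (K₀ * W₁) := Nat.mul_le_mul (Nat.pow_le_pow_left h6 _) h7
        _ = (K₀ * W₁) ^ (f + 1) := (pow_succ _ _).symm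
        _ < ℓ ^ M.factorization ℓ * (q₀ * N₁) := h4
        _ = (q₀ * N₁) * ℓ ^ M.factorization ℓ := mul_comm _ _
    exact Nat.lt_of_mul_lt_mul_left h8
  -- a prime factor
  have hℓ₀M : ℓ₀ ∣ M := (hQE ℓ₀ hℓ₀ hℓ₀Q).trans hEM
  have hEM4 : 2 ∣ M → 4 ∣ E := by
    intro h
    refine Nat.dvd_gcd ((h4q (hQ 2 Nat.prime_two (h.trans hMQ))).trans hq01) ?_
    have h1 : 2 ^ 2 ∣ Q ^ n := (pow_dvd_pow_of_dvd (h.trans hMQ) 2).trans (pow_dvd_pow Q (by omega))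
    exact h1
  have hM2 : 2 < M := by
    have hE3 : 3 ≤ E := by
      have h1 := hQE ℓ₀ hℓ₀ hℓ₀Q
      have h2 := Nat.le_of_dvd hE0 h1
      rcases hℓ₀.eq_two_or_odd' with h3 | h3
      · subst h3
        have h4 := Nat.le_of_dvd hE0 (hEM4 hℓ₀M)
        omega
      · have h4 := hℓ₀.two_le
        obtain ⟨v, hv⟩ := h3
        omega
    have h3 := Nat.le_of_dvd (Nat.pos_of_ne_zero hM0) hEM
    omega
  -- the exponent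
  have hpgq : p ^ (g₀ * h * W₁) = q₁ ^ W₁ := by
    rw [pow_mul, pow_mul]
  have hgeom : p ^ (g₀ * h * W₁) - 1 = n * ∑ i ∈ range W₁, q₁ ^ i := by
    rw [hpgq, pow_sub_one_geom q₁ W₁ hqq.le]
  have hpg : 1 < p ^ (g₀ * h * W₁) := Nat.one_lt_pow (mul_ne_zero (mul_ne_zero hg₀ hh0.ne') hW0) hp.one_lt
  have hℓ1 : ∀ ℓ : ℕ, ℓ.Prime → ℓ ∣ D₀ → (ℓ - 1) ∣ n := by
    intro ℓ hℓ hℓD
    have h1 := Nat.totient_dvd_of_dvd hℓD
    rw [Nat.totient_prime hℓ] at h1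
    exact h1.trans (hφD.trans hq01)
  refine ⟨g₀ * h * W₁, u₀ * ∑ i ∈ range W₁, q₁ ^ i, M, E, ⟨hpg, hM, hEM, ?_, ?_, hM2, ?_, hEM4, ?_⟩, ?_, hkey⟩
  · rw [hgeom, hu₀]
    ring
  · rw [Nat.coprime_iff_gcd_eq_one]
    by_contra hcon
    obtain ⟨ℓ, hℓ, hℓg⟩ := Nat.exists_prime_and_dvd hcon
    have h1 := hℓg.trans (Nat.gcd_dvd_left _ _)
    have h2 := hℓg.trans (Nat.gcd_dvd_right _ _)
    have h3 := hEp ℓ hℓ h2
    rcases hℓ.dvd_mul.1 h1 with h4 | h4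
    · have h5 := Nat.dvd_gcd h4 h3
      rw [hu₀c] at h5
      exact hℓ.one_lt.ne' (Nat.dvd_one.1 h5)
    · have h5 : q₁ ≡ 1 [MOD ℓ] := by
        have h6 : ℓ ∣ q₁ - 1 := h2.trans ⟨u₀, hu₀⟩
        exact ((Nat.modEq_iff_dvd' hqq.le).2 h6).symm
      have h6 := bigger_cop (R := W₁) h5 (Nat.Coprime.coprime_dvd_right h3 hcop)
      have h7 := Nat.dvd_gcd h4 (dvd_refl ℓ)
      rw [h6] at h7
      exact hℓ.one_lt.ne' (Nat.dvd_one.1 h7)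
  · intro ℓ hℓ hℓM
    refine ⟨hQE ℓ hℓ (hℓM.trans hMQ), ?_⟩
    rw [hgeom]
    exact (hℓ1 ℓ hℓ (hQ ℓ hℓ (hℓM.trans hMQ))).mul_right _
  · rw [hgeom]
    exact Even.mul_right (even_iff_two_dvd.2 h2n) _
  · intro x hx
    have hx1 : x.Coprime N₁ := Nat.Coprime.coprime_mul_right_right hx
    have hx2 : x.Coprime W₁ := Nat.Coprime.coprime_mul_left_right hx
    refine (Nat.modEq_and_modEq_iff_modEq_mul hNW).1 ⟨?_, ?_⟩
    · have h1 := Nat.ModEq.pow_totient hx1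
      have h2 : N₁.totient ∣ p ^ (g₀ * h * W₁) - 1 := by
        have h3 : p ^ h ≡ 1 [MOD N₁.totient] :=
          Nat.ModEq.pow_totient ((Nat.Prime.coprime_iff_not_dvd hp).2 hpN)
        have h4 := h3.pow (g₀ * W₁)
        rw [one_pow, ← pow_mul, show h * (g₀ * W₁) = g₀ * h * W₁ by ring] at h4
        exact (Nat.modEq_iff_dvd' hpg.le).1 h4.symm
      obtain ⟨v, hv⟩ := h2
      rw [hv, pow_mul]
      have h3 := h1.pow v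
      rwa [one_pow] at h3
    · have h1 : x ^ (n * W₁) ≡ 1 [MOD W₁] :=
        exp_dvd (fun ℓ hℓ hℓW => hℓ1 ℓ hℓ (hW₁ ℓ hℓ hℓW)) hx2
      have h2 : W₁ ∣ ∑ i ∈ range W₁, q₁ ^ i := by
        refine (geom_dvd' hqq (fun ℓ hℓ hℓW => ⟨(hW₁ ℓ hℓ hℓW).trans (hDq.trans hq01), fun h5 => ?_⟩) W₁).2
          (dvd_refl W₁)
        exact (h4q (h5 ▸ hW₁ ℓ hℓ hℓW)).trans hq01
      obtain ⟨v, hv⟩ := h2
      rw [hgeom, hv, ← mul_assoc, pow_mul]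
      have h3 := h1.pow v
      rwa [one_pow] at h3

end Pool.Agent.Q23.EG
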