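import Pool.Agent.Q23.EG.Rel

/-!
# Nonvanishing
-/

set_option autoImplicit false

namespace Pool.Agent.Q23.EG

open Finset Polynomial Pool.Agent.Y18.GX

section
variable {k : Type} [Field k]

lemma B_coeff {L : ℕ} (hL : 0 < L) (m : ℕ) : ((1 - X ^ L : k[X]) ^ m).coeff (m * L) ≠ 0 := by
  have h1 : (1 - X ^ L : k[X]).natDegree ≤ L := by
    refine (natDegree_sub_le _ _).trans ?_
    rw [natDegree_one, natDegree_X_pow]
    simp
  rw [coeff_pow_of_natDegree_le h1]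
  apply pow_ne_zero
  rw [coeff_sub, coeff_one, if_neg (by omega), coeff_X_pow, if_pos rfl, zero_sub]
  exact neg_ne_zero.2 one_ne_zero

lemma B_deg (L m : ℕ) : ((1 - X ^ L : k[X]) ^ m).natDegree ≤ m * L := by
  refine natDegree_pow_le.trans (Nat.mul_le_mul_left _ ?_)
  refine (natDegree_sub_le _ _).trans ?_
  rw [natDegree_one, natDegree_X_pow]
  simp

open scoped Classical in
/-- the coefficients of the numerator -/
noncomputable def phi {Q N₁ : ℕ} (M : ℕ) (ψ₁ : MulChar (ZMod N₁) k) (e : AddChar (ZMod Q) k) (ξ : k) (c : ZMod Q)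
    (y : ℕ) : k :=
  if ξ * e ((M : ZMod Q) * c * (y : ZMod Q)) = 1 then ψ₁ (y : ZMod N₁) else 0

lemma phi_per {Q N₁ M E : ℕ} (hQ : Q = M * E) (ψ₁ : MulChar (ZMod N₁) k) (e : AddChar (ZMod Q) k) (ξ : k)
    (c : ZMod Q) (y : ℕ) : phi M ψ₁ e ξ c (y + N₁ * E) = phi M ψ₁ e ξ c y := by
  unfold phi
  have h0 : (M : ZMod Q) * (E : ZMod Q) = 0 := by
    rw [← Nat.cast_mul, ← hQ, ZMod.natCast_self]
  have h1 : (M : ZMod Q) * c * ((y + N₁ * E : ℕ) : ZMod Q) = (M : ZMod Q) * c * (y : ZMod Q) := by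
    push_cast
    linear_combination (c * N₁) * h0
  have h2 : ((y + N₁ * E : ℕ) : ZMod N₁) = (y : ZMod N₁) := by
    push_cast
    simp
  rw [h1, h2]

lemma phi_shift {Q N₁ M E : ℕ} (hQ : Q = M * E) (ψ₁ : MulChar (ZMod N₁) k) (e : AddChar (ZMod Q) k) (ξ : k)
    (c : ZMod Q) (s : ℕ) (y : ℕ) : phi M ψ₁ e ξ (((1 + E * s : ℕ) : ZMod Q) * c) y = phi M ψ₁ e ξ c y := by
  unfold phi
  have h0 : (M : ZMod Q) * (E : ZMod Q) = 0 := by
    rw [← Nat.cast_mul, ← hQ, ZMod.natCast_self]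
  have h1 : (M : ZMod Q) * (((1 + E * s : ℕ) : ZMod Q) * c) * (y : ZMod Q) = (M : ZMod Q) * c * (y : ZMod Q) := by
    push_cast
    linear_combination (c * s * y) * h0
  rw [h1]

lemma VV_eq {Q N₁ : ℕ} (M N : ℕ) (ψ₁ : MulChar (ZMod N₁) k) (e : AddChar (ZMod Q) k) (ξ : k) (F : k[X])
    (c : ZMod Q) : VV M N ψ₁ e ξ F c =
      ∑ y ∈ range N, phi M ψ₁ e ξ c y * F.eval ((y : k) / (N : ℕ)) * e c ^ y := rfl

/-- the numerator of a reduced sum -/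
lemma exists_A {Q N₁ M E u q m : ℕ} [NeZero Q] (D : Num q u M E Q) (hN0 : N₁ ≠ 0) (hNk : ((N₁ * Q : ℕ) : k) ≠ 0)
    (ψ₁ : MulChar (ZMod N₁) k) (e : AddChar (ZMod Q) k) (ξ : k) (F : k[X]) (hF : F.natDegree ≤ m)
    (c : ZMod Q) : ∃ A : k[X], A.degree < (m * (N₁ * E) : ℕ) ∧
      (∀ (s : ℕ), e (((1 + E * s : ℕ) : ZMod Q) * c) ^ (N₁ * E) ≠ 1 →
        ((1 - X ^ (N₁ * E) : k[X]) ^ m).eval (e (((1 + E * s : ℕ) : ZMod Q) * c)) *
          VV M (N₁ * Q) ψ₁ e ξ F (((1 + E * s : ℕ) : ZMod Q) * c) =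
        A.eval (e (((1 + E * s : ℕ) : ZMod Q) * c))) ∧
      (∀ Z : k, Z ^ (N₁ * E) = 1 → 1 ≤ m → A.eval Z =
        -(((N₁ * E * M : ℕ) : k) * ((F.coeff m * ((N₁ * Q : ℕ) : k)⁻¹ ^ m) * (m.factorial : k) *
          ((N₁ * E : ℕ) : k) ^ (m - 1))) * ∑ y ∈ range (N₁ * E), phi M ψ₁ e ξ c y * Z ^ y) := by
  have hL : 0 < N₁ * E := Nat.mul_pos (Nat.pos_of_ne_zero hN0) D.E0
  set G : k[X] := F.comp (C (((N₁ * Q : ℕ) : k)⁻¹) * X) with hG
  have hGdeg : G.natDegree ≤ m := by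
    refine natDegree_comp_le.trans ?_
    calc F.natDegree * (C (((N₁ * Q : ℕ) : k)⁻¹) * X).natDegree ≤ F.natDegree * 1 :=
          Nat.mul_le_mul_left _ ((natDegree_C_mul_le _ _).trans natDegree_X_le)
      _ ≤ m := by rw [mul_one]; exact hF
  obtain ⟨A, h1, h2, h3⟩ := exists_num (L := N₁ * E) (W := M) hL (phi M ψ₁ e ξ c)
    (fun y => phi_per D.hQ ψ₁ e ξ c y) m G hGdeg
  have hLM : N₁ * E * M = N₁ * Q := by rw [D.hQ]; ring
  refine ⟨A, h1, ?_, ?_⟩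
  · intro s hs
    rw [← h2 _ _ hs, eval_pow, eval_sub, eval_one, eval_pow, eval_X, VV_eq, hLM]
    · congr 1
      refine sum_congr rfl fun y _ => ?_
      rw [phi_shift D.hQ, hG, eval_comp, eval_mul, eval_C, eval_X, div_eq_inv_mul]
    · rw [hLM, ← e_nat]
      have h4 : ((N₁ * Q : ℕ) : ZMod Q) = 0 := by
        push_cast
        simp
      rw [h4, zero_mul, AddChar.map_zero_eq_one]
  · intro Z hZ hm
    rw [h3 Z hZ hm, hG, comp_C_mul_X_coeff]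

lemma M_mul {Q M E : ℕ} [NeZero Q] [NeZero M] (hMQ : M ∣ Q) (hQ : Q = M * E) (hEM : E ∣ M) (c : (ZMod Q)ˣ)
    (hc : ZMod.unitsMap hMQ c = 1) : (M : ZMod Q) * (c : ZMod Q) = (M : ZMod Q) * 1 := by
  have h1 : (((c : ZMod Q).val : ℕ) : ZMod Q) = (c : ZMod Q) := by rw [ZMod.natCast_val, ZMod.cast_id', id_eq]
  have h2 : (((c : ZMod Q).val : ℕ) : ZMod M) = 1 := by
    have h3 := congrArg (fun z : (ZMod M)ˣ => (z : ZMod M)) hc
    simp only [ZMod.unitsMap_def, Units.coe_map, MonoidHom.coe_coe, Units.val_one] at h3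
    rw [← h1, map_natCast] at h3
    exact h3
  have h3 : (M : ℤ) ∣ ((c : ZMod Q).val : ℤ) - 1 := by
    rw [← ZMod.intCast_zmod_eq_zero_iff_dvd]
    push_cast
    rw [h2, sub_self]
  obtain ⟨t, ht⟩ := h3
  obtain ⟨v, hv⟩ := hEM
  have h4 : (Q : ℤ) ∣ (M : ℤ) * (((c : ZMod Q).val : ℤ) - 1) := by
    rw [ht, hQ]
    refine ⟨v * t, ?_⟩
    push_cast
    have : (M : ℤ) = E * v := by exact_mod_cast hv
    linear_combination ((M : ℤ) * t) * this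
  have h5 : (((M : ℤ) * (((c : ZMod Q).val : ℤ) - 1) : ℤ) : ZMod Q) = 0 :=
    (ZMod.intCast_zmod_eq_zero_iff_dvd _ Q).2 h4
  push_cast at h5
  rw [h1] at h5
  linear_combination h5

end

end Pool.Agent.Q23.EG
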