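import Mathlib

/-!
# Large prime powers of a number
-/

set_option autoImplicit false

namespace Pool.Agent.Q23.EG

open Finset

/-- a number `W > K ^ ((c + 1) ^ s - 1)` with at most `s` prime factors is `W₁ Q`, where all prime powers of `Q`
exceed `(K W₁) ^ c` -/
theorem gap2 {s K c W : ℕ} (hW : W ≠ 0) (hs : W.primeFactors.card ≤ s) (hK : 1 ≤ K)
    (hbig : K ^ ((c + 1) ^ s - 1) < W) :
    ∃ W₁ Q : ℕ, W = W₁ * Q ∧ W₁.Coprime Q ∧ Q ≠ 1 ∧
      ∀ ℓ : ℕ, ℓ.Prime → ℓ ∣ Q → (K * W₁) ^ c < ℓ ^ Q.factorization ℓ := by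
  classical
  set P : Finset ℕ → ℕ := fun A => ∏ ℓ ∈ A, ℓ ^ W.factorization ℓ with hP
  set S : Finset (Finset ℕ) := W.primeFactors.powerset.filter (fun A => K * P A ≤ K ^ ((c + 1) ^ A.card)) with hS
  have hne : S.Nonempty := ⟨∅, by
    rw [hS, mem_filter]
    refine ⟨empty_mem_powerset _, ?_⟩
    simp [hP]⟩
  obtain ⟨A, hAS, hmax⟩ := exists_max_image S Finset.card hne
  rw [hS, mem_filter, mem_powerset] at hAS
  obtain ⟨hAW, hA⟩ := hAS
  have hWP : P W.primeFactors = W := Nat.factorization_prod_pow_eq_self hW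
  have hsplit : P A * P (W.primeFactors \ A) = W := by
    have h1 := prod_sdiff (f := fun ℓ => ℓ ^ W.factorization ℓ) hAW
    have h2 : P A * P (W.primeFactors \ A) = P W.primeFactors := by
      rw [mul_comm]
      exact h1
    rw [h2, hWP]
  have hPpos : ∀ B : Finset ℕ, B ⊆ W.primeFactors → 0 < P B := fun B hB =>
    Finset.prod_pos fun ℓ hℓ => pow_pos (Nat.prime_of_mem_primeFactors (hB hℓ)).pos _
  have hfac : ∀ B : Finset ℕ, B ⊆ W.primeFactors → ∀ ℓ : ℕ, ℓ.Prime → ℓ ∣ P B → ℓ ∈ B := by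
    intro B hB ℓ hℓ hd
    obtain ⟨ℓ', hℓ', h1⟩ := (Prime.dvd_finset_prod_iff hℓ.prime _).1 hd
    have h2 := (Nat.prime_dvd_prime_iff_eq hℓ (Nat.prime_of_mem_primeFactors (hB hℓ'))).1 (hℓ.dvd_of_dvd_pow h1)
    rw [h2]
    exact hℓ'
  have hcop : (P A).Coprime (P (W.primeFactors \ A)) := by
    rw [Nat.coprime_iff_gcd_eq_one]
    by_contra hcon
    obtain ⟨ℓ, hℓ, hℓg⟩ := Nat.exists_prime_and_dvd hcon
    have h1 := hfac A hAW ℓ hℓ (hℓg.trans (Nat.gcd_dvd_left _ _))
    have h2 := hfac _ sdiff_subset ℓ hℓ (hℓg.trans (Nat.gcd_dvd_right _ _))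
    exact (mem_sdiff.1 h2).2 h1
  refine ⟨P A, P (W.primeFactors \ A), hsplit.symm, hcop, ?_, ?_⟩
  · intro h1
    rw [h1, mul_one] at hsplit
    rw [hsplit] at hA
    have h2 : A.card ≤ s := (card_le_card hAW).trans hs
    have h3 : K ^ ((c + 1) ^ A.card) ≤ K ^ ((c + 1) ^ s) :=
      Nat.pow_le_pow_right hK (Nat.pow_le_pow_right (by omega) h2)
    have h4 : K ^ ((c + 1) ^ s) = K * K ^ ((c + 1) ^ s - 1) := by
      rw [← pow_succ']
      congr 1
      have : 0 < (c + 1) ^ s := by positivity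
      omega
    rw [h4] at h3
    have h5 := Nat.le_of_mul_le_mul_left (hA.trans h3) hK
    omega
  · intro ℓ hℓ hd
    have h1 := hfac _ sdiff_subset ℓ hℓ hd
    rw [mem_sdiff] at h1
    have hfe : (P (W.primeFactors \ A)).factorization ℓ = W.factorization ℓ := by
      have h2 := congrArg (fun n => n.factorization ℓ) hsplit
      rw [Nat.factorization_mul (hPpos A hAW).ne' (hPpos _ sdiff_subset).ne', Finsupp.add_apply] at h2
      have h3 : (P A).factorization ℓ = 0 := Nat.factorization_eq_zero_of_not_dvd fun h4 => h1.2 (hfac A hAW ℓ hℓ h4)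
      omega
    rw [hfe]
    by_contra hcon
    push Not at hcon
    have h2 : insert ℓ A ∈ S := by
      rw [hS, mem_filter, mem_powerset]
      refine ⟨insert_subset h1.1 hAW, ?_⟩
      have h3 : P (insert ℓ A) = ℓ ^ W.factorization ℓ * P A := by
        simp only [hP]
        rw [prod_insert h1.2]
      rw [h3, card_insert_of_notMem h1.2, pow_succ (c + 1), pow_mul]
      calc K * (ℓ ^ W.factorization ℓ * P A) = (K * P A) * ℓ ^ W.factorization ℓ := by ring
        _ ≤ (K * P A) * (K * P A) ^ c := Nat.mul_le_mul_left _ hcon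
        _ = (K * P A) ^ (c + 1) := (pow_succ' _ _).symm
        _ ≤ (K ^ (c + 1) ^ A.card) ^ (c + 1) := Nat.pow_le_pow_left hA _
    have h3 := hmax _ h2
    rw [card_insert_of_notMem h1.2] at h3
    omega

end Pool.Agent.Q23.EG
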