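import Pool.Agent.Q23.EG.Ari
import Pool.Agent.Q23.EG.Gap
import Pool.Agent.Q121.EG.A1
import Pool.Agent.Q65.EG.Frob
import Pool.Agent.Q65.EG.Ker
import Pool.Agent.Q190.EG.Trc
import Pool.Agent.Q277.EG.Fib
import Pool.Agent.Q123.EG.Deg
import Pool.Agent.Q123.EG.Ext
import Pool.Agent.Q123.EG.Par
import Pool.Agent.Q149.EG.C1
import Pool.Agent.Q149.EG.C2
import Pool.Agent.Q94.EG.Uniq
import Pool.Agent.Q162.EG.Y0

/-!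
# Levels `N₁ W` with `W` supported on a finite set of primes
-/

set_option autoImplicit false

namespace Pool.Agent.Q23.EG

open Finset Polynomial Pool.Agent.Y18.GX Pool.Agent.H178.GC Pool.Agent.Q23.EF

theorem final {p : ℕ} (hp : p.Prime) (hp2 : p ≠ 2) {D₀ N₁ W g₀ m : ℕ} (hg₀ : g₀ ≠ 0)
    (h2D : 2 * D₀ ∣ p ^ g₀ - 1) (hφD : D₀.totient ∣ p ^ g₀ - 1) (hpN : ¬ p ∣ N₁ * N₁.totient)
    (hcop : N₁.Coprime W) (hW : ∀ ℓ : ℕ, ℓ.Prime → ℓ ∣ W → ℓ ∣ D₀)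
    (hbig : (2 * D₀ * p ^ (g₀ + 1) * N₁ ^ 2) ^ (((2 * D₀).totient / 2 + 2) ^ D₀.primeFactors.card - 1) < W)
    (hm1 : 1 ≤ m) (hmp : m ≤ p - 1) (ψ : DirichletCharacter ℂ (N₁ * W)) (hc : W ∣ ψ.conductor)
    (hpar : ψ (-1) = (-1) ^ m) : Pool.Agent.Y18.GX.IsUnitAt p (valSum p m ψ) := by
  have hW0 : W ≠ 0 := by
    rintro rfl
    omega
  have hq00 : 1 < p ^ g₀ := Nat.one_lt_pow hg₀ hp.one_lt
  have hD0 : D₀ ≠ 0 := by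
    rintro rfl
    rw [mul_zero, zero_dvd_iff] at h2D
    omega
  have hpN1 : ¬ p ∣ N₁ := fun h => hpN (h.mul_right _)
  have hpφ : ¬ p ∣ N₁.totient := fun h => hpN (h.mul_left _)
  have hN0 : N₁ ≠ 0 := by
    rintro rfl
    exact hpN1 (dvd_zero _)
  have hK : 1 ≤ 2 * D₀ * p ^ (g₀ + 1) * N₁ ^ 2 :=
    Nat.mul_pos (Nat.mul_pos (by omega) (pow_pos hp.pos _)) (pow_pos (Nat.pos_of_ne_zero hN0) _)
  have hs : W.primeFactors.card ≤ D₀.primeFactors.card := by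
    apply card_le_card
    intro ℓ hℓ
    rw [Nat.mem_primeFactors] at hℓ ⊢
    exact ⟨hℓ.1, hW ℓ hℓ.1 hℓ.2.1, hD0⟩
  obtain ⟨W₁, Q, rfl, hWQ, hQ1, hbig'⟩ := gap2 (c := (2 * D₀).totient / 2 + 1) hW0 hs hK hbig
  have hW10 : W₁ ≠ 0 := left_ne_zero_of_mul hW0
  have hQ0 : Q ≠ 0 := right_ne_zero_of_mul hW0
  have hNW1 : N₁.Coprime W₁ := Nat.Coprime.coprime_mul_right_right hcop
  have hNQ : N₁.Coprime Q := Nat.Coprime.coprime_mul_left_right hcop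
  obtain ⟨g, u, M, E, D, hexp, hsize⟩ := params hp hg₀ h2D hφD hN0 hpφ hW10 hQ1 hQ0 hNW1 hWQ
    (fun ℓ hℓ h => hW ℓ hℓ (h.mul_right _)) (fun ℓ hℓ h => hW ℓ hℓ (h.mul_left _)) hbig'
  -- the prime `p` does not divide the level
  have hpD : ∀ ℓ : ℕ, ℓ.Prime → ℓ ∣ D₀ → ℓ ≠ p := by
    rintro ℓ hℓ h rfl
    have h1 : ℓ ∣ ℓ ^ g₀ - 1 := (h.mul_left 2).trans h2D
    have h2 : ℓ ∣ ℓ ^ g₀ := dvd_pow_self ℓ hg₀
    have h3 := Nat.dvd_sub h2 h1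
    have h4 : ℓ ^ g₀ - (ℓ ^ g₀ - 1) = 1 := by omega
    rw [h4] at h3
    exact hℓ.one_lt.ne' (Nat.dvd_one.1 h3)
  have hpQ : ¬ p ∣ Q := fun h => hpD p hp (hW p hp (h.mul_left _)) rfl
  have hpW1 : ¬ p ∣ W₁ := fun h => hpD p hp (hW p hp (h.mul_right _)) rfl
  have hpNW : ¬ p ∣ N₁ * W₁ := fun h => (hp.dvd_mul.1 h).elim hpN1 hpW1
  -- the modulus `R`
  have hM0 : M ≠ 0 := by
    have := D.hM
    omega
  obtain ⟨R, hR, hRp, hR4, hRD⟩ := exists_R hM0 hD0 D.hEM D.h4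
    (fun ℓ hℓ h => hW ℓ hℓ ((h.trans D.dvd).mul_left _))
  have hD2 : 2 ≤ D₀ := by
    obtain ⟨ℓ₀, hℓ₀, hℓ₀Q⟩ := Nat.exists_prime_and_dvd hQ1
    exact hℓ₀.two_le.trans (Nat.le_of_dvd (Nat.pos_of_ne_zero hD0) (hW ℓ₀ hℓ₀ (hℓ₀Q.mul_left _)))
  have hRt : R.totient ≤ 2 * ((2 * D₀).totient / 2) := by
    rw [even_tot (n := 2 * D₀) (by omega)]
    exact Nat.le_of_dvd (Nat.totient_pos.2 (by omega)) (Nat.totient_dvd_of_dvd hRD)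
  have key : ∀ (N : ℕ) (hN : N = N₁ * W₁ * Q) (ψ : DirichletCharacter ℂ N), W₁ * Q ∣ ψ.conductor →
      ψ (-1) = (-1) ^ m → Pool.Agent.Y18.GX.IsUnitAt p (valSum p m ψ) := by
    rintro N rfl ψ hc hpar
    exact unitG Pool.Agent.Q121.EG.A1.gauss Pool.Agent.Q65.EG.frob Pool.Agent.Q190.EG.trace
      Pool.Agent.Q277.EG.fiber Pool.Agent.Q277.EG.eval Pool.Agent.Q123.EG.par Pool.Agent.Q123.EG.extract
      Pool.Agent.Q149.EG.pigeon Pool.Agent.Q149.EG.lam Pool.Agent.Q94.EG.uniq Pool.Agent.Q123.EG.deg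
      Pool.Agent.Q123.EG.nondeg Pool.Agent.Q65.EG.ker Pool.Agent.Q162.EG.y0 hp hp2 D hpQ hpNW
      (hNQ.mul_left hWQ) hexp hm1 hmp hR hRp hR4 hRt (fun ℓ hℓ h => hsize ℓ hℓ h m hmp) ψ
      ((dvd_mul_left _ _).trans hc) hpar
  exact key _ (by ring) ψ hc hpar

end Pool.Agent.Q23.EG
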