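import Pool.Agent.Q23.EG.Stm

/-!
# The group of classes modulo `M`
-/

set_option autoImplicit false

namespace Pool.Agent.Q23.EG

open Finset Polynomial

/-- half of a group of classes -/
lemma half_card {M : ℕ} [NeZero M] (hM : 2 < M) (G : Subgroup (ZMod M)ˣ) (hG : (-1 : (ZMod M)ˣ) ∈ G)
    (I : Finset (ZMod M)ˣ) (hI : ∀ h ∈ I, h ∈ G) (hneg : ∀ h ∈ I, -h ∉ I) : 2 * I.card ≤ Nat.card G := by
  classical
  have h1 : (I ∪ I.image (fun h => -h)).card = 2 * I.card := by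
    rw [card_union_of_disjoint, card_image_of_injective _ neg_injective, two_mul]
    rw [disjoint_left]
    intro a ha hb
    obtain ⟨c, hc, hca⟩ := mem_image.1 hb
    apply hneg c hc
    rw [hca]
    exact ha
  have h3 : Nat.card G = (univ.filter (fun h : (ZMod M)ˣ => h ∈ G)).card := by
    rw [Nat.card_eq_fintype_card]
    exact Fintype.card_subtype _
  rw [← h1, h3]
  apply card_le_card
  intro a ha
  refine mem_filter.2 ⟨mem_univ _, ?_⟩
  rcases mem_union.1 ha with h | h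
  · exact hI a h
  · obtain ⟨c, hc, rfl⟩ := mem_image.1 h
    have h2 := G.mul_mem hG (hI c hc)
    rwa [neg_one_mul] at h2

/-- a unit modulo `M > 2` is not half of `M` -/
lemma two_val_ne {M : ℕ} [NeZero M] (hM : 2 < M) (h : (ZMod M)ˣ) : 2 * (h : ZMod M).val ≠ M := by
  intro h1
  have h2 := ZMod.val_coe_unit_coprime h
  have h3 : (h : ZMod M).val ∣ M := ⟨2, by rw [mul_comm]; exact h1.symm⟩
  have h4 := Nat.Coprime.eq_one_of_dvd h2 h3
  omega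

lemma val_neg_unit {M : ℕ} [NeZero M] (hM : 2 < M) (h : (ZMod M)ˣ) :
    ((-h : (ZMod M)ˣ) : ZMod M).val = M - (h : ZMod M).val := by
  rw [Units.val_neg]
  have : NeZero (h : ZMod M) := ⟨by
    intro h0
    have h2 := ZMod.val_coe_unit_coprime h
    rw [h0, ZMod.val_zero, Nat.coprime_zero_left] at h2
    omega⟩
  exact ZMod.val_neg_of_ne_zero _

/-- the data of the relation: a vector `w` that is small on the whole group -/
lemma exists_w (J8 : S_pigeon) (J11 : S_deg) {M T r : ℕ} [NeZero M] (hM : 2 < M) (G : Subgroup (ZMod M)ˣ)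
    (hG : (-1 : (ZMod M)ˣ) ∈ G) (hr : Nat.card G ≤ 2 * r) (hT : 0 < T)
    (hsize : ∀ ℓ : ℕ, ℓ.Prime → ℓ ∣ M →
      T ^ r * M.primeFactors.card * (if ℓ = 2 then 2 else 1) < ℓ ^ M.factorization ℓ) :
    ∃ w : ZMod M, (∀ ℓ : ℕ, ℓ.Prime → ℓ ∣ M →
      ¬ ℓ ^ (M.factorization ℓ - (if ℓ = 2 then 1 else 0)) ∣ w.val) ∧
      ∀ h ∈ G, (w * (h : ZMod M)).valMinAbs.natAbs * T < M := by
  classical
  set I : Finset (ZMod M)ˣ := univ.filter (fun h => h ∈ G ∧ 2 * (h : ZMod M).val < M) with hI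
  have hIG : ∀ h ∈ I, h ∈ G := fun h hh => (mem_filter.1 hh).2.1
  have hneg : ∀ h ∈ I, -h ∉ I := by
    intro h hh hh'
    have h1 := (mem_filter.1 hh).2.2
    have h2 := (mem_filter.1 hh').2.2
    rw [val_neg_unit hM] at h2
    have := ZMod.val_lt (h : ZMod M)
    omega
  have hc : I.card ≤ r := by
    have := half_card hM G hG I hIG hneg
    omega
  set Deg : Finset (ZMod M) := univ.filter (fun w : ZMod M => ∃ ℓ : ℕ, ℓ.Prime ∧ ℓ ∣ M ∧
    ℓ ^ (M.factorization ℓ - (if ℓ = 2 then 1 else 0)) ∣ w.val) with hDeg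
  have h1 : T ^ r * Deg.card < M := J11 M (T ^ r) (by omega) (pow_pos hT _) hsize
  have h2 : T ^ I.card * Deg.card < M :=
    lt_of_le_of_lt (Nat.mul_le_mul_right _ (Nat.pow_le_pow_right hT hc)) h1
  obtain ⟨w, hw, hw'⟩ := J8 M T I Deg hT h2
  refine ⟨w, ?_, ?_⟩
  · intro ℓ hℓ hℓM hd
    apply hw
    rw [hDeg, mem_filter]
    exact ⟨mem_univ _, ℓ, hℓ, hℓM, hd⟩
  · intro h hh
    by_cases h3 : 2 * (h : ZMod M).val < M
    · exact hw' h (mem_filter.2 ⟨mem_univ _, hh, h3⟩)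
    · have h4 := two_val_ne hM h
      have h5 : -h ∈ I := by
        rw [hI, mem_filter]
        refine ⟨mem_univ _, ?_, ?_⟩
        · have := G.mul_mem hG hh
          rwa [neg_one_mul] at this
        · rw [val_neg_unit hM]
          have := ZMod.val_lt (h : ZMod M)
          omega
      have h6 := hw' _ h5
      rw [Units.val_neg, mul_neg, ZMod.natAbs_valMinAbs_neg] at h6
      exact h6

section
variable {k : Type} [Field k]

/-- the hypotheses on the numbers -/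
structure Num (q u M E Q : ℕ) : Prop where
  hq1 : 1 < q
  hQ : Q = M * E
  hEM : E ∣ M
  hq : q - 1 = E * u
  hu : u.Coprime E
  hM : 2 < M
  hp : ∀ ℓ : ℕ, ℓ.Prime → ℓ ∣ M → ℓ ∣ E ∧ (ℓ - 1) ∣ q - 1
  h4 : 2 ∣ M → 4 ∣ E
  heven : Even (q - 1)

variable {q u M E Q : ℕ}

lemma Num.dvd (D : Num q u M E Q) : M ∣ Q := ⟨E, D.hQ⟩

lemma Num.E0 (D : Num q u M E Q) [NeZero Q] : 0 < E := Nat.pos_of_ne_zero (by
  rintro rfl
  have := D.hQ
  rw [mul_zero] at this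
  exact NeZero.ne Q this)

lemma Num.M0 (D : Num q u M E Q) : 0 < M := by
  have := D.hM
  omega

lemma Num.prime_dvd (D : Num q u M E Q) {ℓ : ℕ} (hℓ : ℓ.Prime) (h : ℓ ∣ Q) : ℓ ∣ M := by
  rw [D.hQ] at h
  rcases hℓ.dvd_mul.1 h with h | h
  · exact h
  · exact h.trans D.hEM

lemma Num.sq_dvd (D : Num q u M E Q) {ℓ : ℕ} (hℓ : ℓ.Prime) (h : ℓ ∣ Q) : ℓ ^ 2 ∣ Q := by
  have h1 := D.prime_dvd hℓ h
  have h2 := (D.hp ℓ hℓ h1).1
  rw [D.hQ, sq]
  exact Nat.mul_dvd_mul h1 h2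

lemma Num.trace (D : Num q u M E Q) {ℓ : ℕ} (hℓ : ℓ.Prime) (h : ℓ ∣ Q) :
    ℓ ∣ q - 1 ∧ (ℓ - 1) ∣ q - 1 ∧ (ℓ = 2 → 4 ∣ q - 1) := by
  have h1 := D.prime_dvd hℓ h
  have h2 := D.hp ℓ hℓ h1
  rw [D.hq] at h2 ⊢
  refine ⟨h2.1.mul_right u, h2.2, ?_⟩
  rintro rfl
  exact (D.h4 h1).mul_right u

/-- an element of the group congruent to `1` modulo the primes is `1` -/
lemma Num.eq_one (J13 : S_ker) (D : Num q u M E Q) [NeZero Q] [NeZero M] (χ : MulChar (ZMod Q) k)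
    (hprim : ∀ ℓ : ℕ, ℓ.Prime → ℓ ∣ Q → χ ((1 + Q / ℓ : ℕ) : ZMod Q) ≠ 1)
    {h : (ZMod M)ˣ} (hh : h ∈ GG D.dvd χ (q - 1))
    (h1 : ∀ ℓ : ℕ, ℓ.Prime → ℓ ∣ M → ((h : ZMod M).val : ZMod ℓ) = 1 ∧
      (ℓ = 2 → ((h : ZMod M).val : ZMod 4) = 1)) : h = 1 := by
  obtain ⟨c, hc, rfl⟩ := hh
  set x : ℕ := (c : ZMod Q).val with hx
  have hcx : ((x : ℕ) : ZMod Q) = (c : ZMod Q) := by rw [hx, ZMod.natCast_val, ZMod.cast_id', id_eq]
  have hpi : ((ZMod.unitsMap D.dvd c : (ZMod M)ˣ) : ZMod M) = (x : ZMod M) := by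
    rw [ZMod.unitsMap_def, Units.coe_map, MonoidHom.coe_coe, ← hcx, map_natCast]
  have hval : ∀ d : ℕ, d ∣ M → (((ZMod.unitsMap D.dvd c : (ZMod M)ˣ) : ZMod M).val : ZMod d) = (x : ZMod d) := by
    intro d hd
    rw [hpi, ZMod.val_natCast, ZMod.natCast_eq_natCast_iff]
    exact (Nat.mod_modEq x M).of_dvd hd
  have hker : χ ((x : ℤ) : ZMod Q) ^ (q - 1) = 1 := by
    rw [Int.cast_natCast, hcx]
    exact hc
  have h2 : (M : ℤ) ∣ (x : ℤ) - 1 := by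
    refine J13 k M E Q q u χ D.hq1 D.hQ D.hq D.hu D.hEM D.hp D.h4 hprim x hker ?_
    intro ℓ hℓ hℓM
    obtain ⟨h3, h4⟩ := h1 ℓ hℓ hℓM
    rw [hval ℓ hℓM] at h3
    constructor
    · rw [← ZMod.intCast_zmod_eq_zero_iff_dvd] at *
      push_cast
      rw [h3, sub_self]
    · intro h5
      have h6 := h4 h5
      subst h5
      rw [hval 4 ((D.h4 hℓM).trans D.hEM)] at h6
      have h7 : (((x : ℤ) - 1 : ℤ) : ZMod 4) = 0 := by
        push_cast
        rw [h6, sub_self]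
      exact (ZMod.intCast_zmod_eq_zero_iff_dvd _ 4).1 h7
  apply Units.ext
  rw [hpi, Units.val_one]
  have h3 : (((x : ℤ) - 1 : ℤ) : ZMod M) = 0 := (ZMod.intCast_zmod_eq_zero_iff_dvd _ M).2 h2
  push_cast at h3
  exact sub_eq_zero.1 h3

lemma Num.neg_one_mem (D : Num q u M E Q) [NeZero Q] [NeZero M] (χ : MulChar (ZMod Q) k) :
    (-1 : (ZMod M)ˣ) ∈ GG D.dvd χ (q - 1) := by
  refine ⟨-1, ?_, ?_⟩
  · show χ ((-1 : (ZMod Q)ˣ) : ZMod Q) ^ (q - 1) = 1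
    obtain ⟨v, hv⟩ := D.heven
    rw [hv, ← two_mul, pow_mul, ← map_pow, Units.val_neg, Units.val_one, neg_one_sq, map_one, one_pow]
  · apply Units.ext
    rw [ZMod.unitsMap_def, Units.coe_map, MonoidHom.coe_coe, Units.val_neg, Units.val_one, map_neg, map_one,
      Units.val_neg, Units.val_one]

/-- the stabilizer of a nondegenerate vector -/
lemma Num.stab (J12 : S_nondeg) (J13 : S_ker) (D : Num q u M E Q) [NeZero Q] [NeZero M] (χ : MulChar (ZMod Q) k)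
    (hprim : ∀ ℓ : ℕ, ℓ.Prime → ℓ ∣ Q → χ ((1 + Q / ℓ : ℕ) : ZMod Q) ≠ 1) (w : ZMod M)
    (hw : ∀ ℓ : ℕ, ℓ.Prime → ℓ ∣ M → ¬ ℓ ^ (M.factorization ℓ - (if ℓ = 2 then 1 else 0)) ∣ w.val)
    (h : (ZMod M)ˣ) (hh : h ∈ GG D.dvd χ (q - 1)) (hwh : w * (h : ZMod M) = w ∨ w * (h : ZMod M) = -w) :
    h = 1 ∨ h = -1 := by
  have key : ∀ g : (ZMod M)ˣ, g ∈ GG D.dvd χ (q - 1) → w * (g : ZMod M) = w → g = 1 := by
    intro g hg hwg
    refine D.eq_one J13 χ hprim hg ?_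
    intro ℓ hℓ hℓM
    have h1 : w * ((g : ZMod M) - 1) = 0 := by rw [mul_sub, hwg, mul_one, sub_self]
    obtain ⟨h2, h3⟩ := J12 M w ((g : ZMod M) - 1) h1 hw ℓ hℓ hℓM
    have h4 : ∀ d : ℕ, d ∣ M → d ∣ ((g : ZMod M) - 1).val → ((g : ZMod M).val : ZMod d) = 1 := by
      intro d hd hd'
      have e1 : ZMod.castHom hd (ZMod d) ((g : ZMod M) - 1) = 0 := by
        have e2 : (((((g : ZMod M) - 1).val : ℕ) : ZMod M)) = (g : ZMod M) - 1 := by
          rw [ZMod.natCast_val, ZMod.cast_id', id_eq]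
        rw [← e2, map_natCast, ZMod.natCast_eq_zero_iff]
        exact hd'
      have e3 : ZMod.castHom hd (ZMod d) (g : ZMod M) = (((g : ZMod M).val : ℕ) : ZMod d) := by
        have e2 : ((((g : ZMod M).val : ℕ) : ZMod M)) = (g : ZMod M) := by
          rw [ZMod.natCast_val, ZMod.cast_id', id_eq]
        conv_lhs => rw [← e2]
        rw [map_natCast]
      rw [map_sub, map_one, e3] at e1
      exact sub_eq_zero.1 e1
    refine ⟨h4 ℓ hℓM h2, fun h5 => ?_⟩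
    have h6 : 4 ∣ M := by
      subst h5
      exact (D.h4 hℓM).trans D.hEM
    exact h4 4 h6 (h3 h5 h6)
  rcases hwh with h1 | h1
  · exact Or.inl (key h hh h1)
  · right
    have h2 : -h ∈ GG D.dvd χ (q - 1) := by
      have := (GG D.dvd χ (q - 1)).mul_mem (D.neg_one_mem χ) hh
      rwa [neg_one_mul] at this
    have h3 := key (-h) h2 (by rw [Units.val_neg, mul_neg, h1, neg_neg])
    rw [← h3, neg_neg]

/-- the number of elements of the group -/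
lemma Num.card_le (J13 : S_ker) (D : Num q u M E Q) [NeZero Q] [NeZero M] (χ : MulChar (ZMod Q) k)
    (hprim : ∀ ℓ : ℕ, ℓ.Prime → ℓ ∣ Q → χ ((1 + Q / ℓ : ℕ) : ZMod Q) ≠ 1) {R : ℕ} (hR : R ∣ M) (hR0 : R ≠ 0)
    (hRp : ∀ ℓ : ℕ, ℓ.Prime → ℓ ∣ M → ℓ ∣ R) (hR4 : 2 ∣ M → 4 ∣ R) :
    Nat.card (GG D.dvd χ (q - 1)) ≤ R.totient := by
  have : NeZero R := ⟨hR0⟩
  rw [← ZMod.card_units_eq_totient, ← Nat.card_eq_fintype_card]
  refine Nat.card_le_card_of_injective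
    (((ZMod.unitsMap hR).comp (GG D.dvd χ (q - 1)).subtype : GG D.dvd χ (q - 1) →* (ZMod R)ˣ)) ?_
  rw [injective_iff_map_eq_one]
  rintro ⟨g, hg⟩ h1
  have h2 : ZMod.unitsMap hR g = 1 := h1
  apply Subtype.ext
  refine D.eq_one J13 χ hprim hg ?_
  have h3 : ((g : ZMod M).val : ZMod R) = 1 := by
    have e2 : ((((g : ZMod M).val : ℕ) : ZMod M)) = (g : ZMod M) := by
      rw [ZMod.natCast_val, ZMod.cast_id', id_eq]
    have e3 := congrArg (fun z : (ZMod R)ˣ => (z : ZMod R)) h2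
    simp only [ZMod.unitsMap_def, Units.coe_map, MonoidHom.coe_coe, Units.val_one] at e3
    rw [← e2, map_natCast] at e3
    exact e3
  have h4 : ∀ d : ℕ, d ∣ R → ((g : ZMod M).val : ZMod d) = 1 := by
    intro d hd
    have h5 := congrArg (ZMod.castHom hd (ZMod d)) h3
    rwa [map_natCast, map_one] at h5
  intro ℓ hℓ hℓM
  refine ⟨h4 ℓ (hRp ℓ hℓ hℓM), fun h5 => ?_⟩
  subst h5
  exact h4 4 (hR4 hℓM)

end

end Pool.Agent.Q23.EG
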