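import Pool.Agent.Q23.EG.CoreG

/-!
# Nonvanishing: the main step
-/

set_option autoImplicit false

namespace Pool.Agent.Q23.EG

open Finset Polynomial Pool.Agent.Y18.GX

section
variable {k : Type} [Field k]

lemma one_add_M {q u M E Q : ℕ} (D : Num q u M E Q) (j : ℕ) :
    ((1 + M : ℕ) : ZMod Q) ^ j = ((1 + M * j : ℕ) : ZMod Q) := by
  have h0 : ((M : ℕ) : ZMod Q) ^ 2 = 0 := by
    rw [← Nat.cast_pow, ZMod.natCast_eq_zero_iff, D.hQ, sq]
    exact Nat.mul_dvd_mul_left M D.hEM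
  have h1 := one_add_pow_of_sq ((M : ℕ) : ZMod Q) h0 j
  push_cast
  rw [h1]
  ring

lemma xi_pow {q u M E Q : ℕ} (D : Num q u M E Q) (χ : MulChar (ZMod Q) k) :
    χ⁻¹ ((1 + M : ℕ) : ZMod Q) ^ E = 1 := by
  rw [← map_pow, one_add_M D, ← D.hQ]
  have : ((1 + Q : ℕ) : ZMod Q) = 1 := by
    push_cast
    simp
  rw [this, map_one]

lemma xi_ne {q u M E Q : ℕ} (D : Num q u M E Q) (χ : MulChar (ZMod Q) k)
    (hprim : ∀ ℓ : ℕ, ℓ.Prime → ℓ ∣ Q → χ ((1 + Q / ℓ : ℕ) : ZMod Q) ≠ 1) :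
    χ⁻¹ ((1 + M : ℕ) : ZMod Q) ≠ 1 := by
  intro h
  rw [MulChar.inv_apply_eq_inv', inv_eq_one] at h
  have hM := D.hM
  obtain ⟨ℓ, hℓ, hℓM⟩ := Nat.exists_prime_and_dvd (show M ≠ 1 by omega)
  obtain ⟨v, hv⟩ := (D.hp ℓ hℓ hℓM).1
  apply hprim ℓ hℓ (hℓM.trans D.dvd)
  have h1 : Q / ℓ = M * v := by
    rw [D.hQ, hv, show M * (ℓ * v) = ℓ * (M * v) by ring]
    exact Nat.mul_div_cancel_left _ hℓ.pos
  rw [h1, ← one_add_M D, map_pow, h, one_pow]

lemma cop_Es {q u M E Q : ℕ} (D : Num q u M E Q) (s : ℕ) : (1 + E * s).Coprime Q := by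
  rw [Nat.coprime_iff_gcd_eq_one]
  by_contra hcon
  obtain ⟨ℓ, hℓ, hℓg⟩ := Nat.exists_prime_and_dvd hcon
  have h1 := hℓg.trans (Nat.gcd_dvd_left _ _)
  have h2 := hℓg.trans (Nat.gcd_dvd_right _ _)
  have h3 := (D.hp ℓ hℓ (D.prime_dvd hℓ h2)).1
  have h4 : ℓ ∣ 1 := by
    have h5 := (Nat.dvd_add_left (h3.mul_right s)).1 h1
    exact h5
  exact hℓ.one_lt.ne' (Nat.dvd_one.1 h4)

theorem coreG (J1 : S_gauss) (J2 : S_frob) (J3 : S_trace) (J4 : S_fiber) (J5 : S_eval) (J6 : S_par)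
    (J7 : S_extract) (J8 : S_pigeon) (J9 : S_lam) (J10 : S_uniq) (J11 : S_deg) (J12 : S_nondeg) (J13 : S_ker)
    (J14 : S_y0) [IsAlgClosed k] {p g : ℕ} [Fact p.Prime] [CharP k p] (hp2 : p ≠ 2)
    {u M E Q N₁ m r : ℕ} [NeZero Q] [NeZero M] (D : Num (p ^ g) u M E Q) (hpQ : ¬ p ∣ Q) (hpN : ¬ p ∣ N₁)
    (hN₁ : N₁.Coprime Q) (ψ₁ : MulChar (ZMod N₁) k) (hψ₁ : ∀ a, ψ₁ a ^ p ^ g = ψ₁ a)
    (χ : MulChar (ZMod Q) k) (hprim : ∀ ℓ : ℕ, ℓ.Prime → ℓ ∣ Q → χ ((1 + Q / ℓ : ℕ) : ZMod Q) ≠ 1)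
    (F : Polynomial ℤ) (c₁ : k) (hF : ∀ x : k, Polynomial.aeval (1 - x) F = (-1) ^ m * Polynomial.aeval x F + c₁)
    (hdeg : F.natDegree ≤ m) (hlead : ((F.coeff m : ℤ) : k) ≠ 0) (hm1 : 1 ≤ m) (hmp : m < p)
    (hpar : ψ₁ (-1) * χ (-1) = (-1) ^ m) (hr : Nat.card (GG D.dvd χ (p ^ g - 1)) ≤ 2 * r)
    (hsize : ∀ ℓ : ℕ, ℓ.Prime → ℓ ∣ M →
      (r * (m * (N₁ * E))) ^ r * M.primeFactors.card * (if ℓ = 2 then 2 else 1) < ℓ ^ M.factorization ℓ) :
    ∑ y ∈ range (N₁ * Q), ψ₁ (y : ZMod N₁) * χ (y : ZMod Q) *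
      Polynomial.aeval ((y : k) / (N₁ * Q : ℕ)) F ≠ 0 := by
  classical
  intro hS
  have hp : p.Prime := Fact.out
  have hM2 := D.hM
  have hN0 : N₁ ≠ 0 := by
    rintro rfl
    exact hpN (dvd_zero _)
  have hcast : ∀ n : ℕ, ¬ p ∣ n → ((n : ℕ) : k) ≠ 0 := fun n hn h => hn ((CharP.cast_eq_zero_iff k p n).1 h)
  have hMpos := D.M0
  have hEpos := D.E0
  have hpM : ¬ p ∣ M := fun h => hpQ (h.trans D.dvd)
  have hpE : ¬ p ∣ E := fun h => hpM (h.trans D.hEM)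
  have hpNQ : ¬ p ∣ N₁ * Q := fun h => (hp.dvd_mul.1 h).elim hpN hpQ
  have hpL : ¬ p ∣ N₁ * E := fun h => (hp.dvd_mul.1 h).elim hpN hpE
  have hpLM : ¬ p ∣ N₁ * E * M := fun h => (hp.dvd_mul.1 h).elim hpL hpM
  have hNk := hcast _ hpNQ
  have hL0 : 0 < N₁ * E := Nat.mul_pos (Nat.pos_of_ne_zero hN0) hEpos
  -- the additive character
  have i1 : NeZero ((Q : ℕ) : k) := ⟨hcast _ hpQ⟩
  have i2 : NeZero ((N₁ * E : ℕ) : k) := ⟨hcast _ hpL⟩
  obtain ⟨ζ, hζ⟩ := HasEnoughRootsOfUnity.exists_primitiveRoot k Q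
  obtain ⟨ρ, hρ⟩ := HasEnoughRootsOfUnity.exists_primitiveRoot k (N₁ * E)
  set e : AddChar (ZMod Q) k := AddChar.zmodChar Q hζ.pow_eq_one with he
  have henat : ∀ n : ℕ, e (n : ZMod Q) = ζ ^ n := fun n => AddChar.zmodChar_apply' _ n
  have he1 : e 1 = ζ := by
    have := henat 1
    rwa [Nat.cast_one, pow_one] at this
  have heu : ∀ c : (ZMod Q)ˣ, IsPrimitiveRoot (e (c : ZMod Q)) Q := by
    intro c
    have h1 : (((c : ZMod Q).val : ℕ) : ZMod Q) = (c : ZMod Q) := by rw [ZMod.natCast_val, ZMod.cast_id', id_eq]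
    rw [← h1, henat]
    exact hζ.pow_of_coprime _ (ZMod.val_coe_unit_coprime c)
  have heL : ∀ c : (ZMod Q)ˣ, e (c : ZMod Q) ^ (N₁ * E) ≠ 1 := by
    intro c h
    have h1 := (heu c).dvd_of_pow_eq_one _ h
    rw [D.hQ] at h1
    have h2 := Nat.dvd_of_mul_dvd_mul_right hEpos h1
    have h3 : N₁.Coprime M := Nat.Coprime.coprime_dvd_right D.dvd hN₁
    have h4 := Nat.Coprime.eq_one_of_dvd h3.symm h2
    omega
  -- the character on the kernel
  set ξ := χ⁻¹ ((1 + M : ℕ) : ZMod Q) with hξ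
  have hξE : ξ ^ E = 1 := xi_pow D χ
  have hξ1 : ξ ≠ 1 := xi_ne D χ hprim
  -- the group
  set G := GG D.dvd χ (p ^ g - 1) with hG
  have hG1 : (-1 : (ZMod M)ˣ) ∈ G := D.neg_one_mem χ
  have hr1 : 1 ≤ r := by
    have : 0 < Nat.card G := Nat.card_pos
    omega
  have hE3 : 3 ≤ E := by
    obtain ⟨ℓ, hℓ, hℓM⟩ := Nat.exists_prime_and_dvd (show M ≠ 1 by omega)
    have h1 := (D.hp ℓ hℓ hℓM).1
    have h2 := Nat.le_of_dvd hEpos h1
    rcases hℓ.eq_two_or_odd' with h3 | h3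
    · subst h3
      have h4 := Nat.le_of_dvd hEpos (D.h4 hℓM)
      omega
    · have h4 := hℓ.two_le
      obtain ⟨v, hv⟩ := h3
      omega
  set T := r * (m * (N₁ * E)) with hT
  have hET : E ≤ T := by
    calc E = 1 * (1 * (1 * E)) := by ring
      _ ≤ r * (m * (N₁ * E)) :=
        Nat.mul_le_mul hr1 (Nat.mul_le_mul hm1 (Nat.mul_le_mul_right _ (Nat.pos_of_ne_zero hN0)))
  have hDT : m * (N₁ * E) ≤ T := Nat.le_mul_of_pos_left _ hr1
  have hTM : T < M := by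
    obtain ⟨ℓ, hℓ, hℓM⟩ := Nat.exists_prime_and_dvd (show M ≠ 1 by omega)
    have h1 := hsize ℓ hℓ hℓM
    have h2 : ℓ ^ M.factorization ℓ ≤ M := Nat.le_of_dvd hMpos (Nat.ordProj_dvd M ℓ)
    have h3 : T ≤ T ^ r := Nat.le_self_pow (by omega) T
    have h4 : 0 < M.primeFactors.card := by
      rw [card_pos]
      exact ⟨ℓ, Nat.mem_primeFactors.2 ⟨hℓ, hℓM, by omega⟩⟩
    have h5 : T ^ r ≤ T ^ r * M.primeFactors.card * (if ℓ = 2 then 2 else 1) := by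
      rw [mul_assoc]
      apply Nat.le_mul_of_pos_right
      apply Nat.mul_pos h4
      split_ifs <;> norm_num
    omega
  obtain ⟨w, hw, hw'⟩ := exists_w J8 J11 hM2 G hG1 hr (by omega) hsize
  have hw0 : w ≠ 0 := by
    rintro rfl
    obtain ⟨ℓ, hℓ, hℓM⟩ := Nat.exists_prime_and_dvd (show M ≠ 1 by omega)
    apply hw ℓ hℓ hℓM
    rw [ZMod.val_zero]
    exact dvd_zero _
  obtain ⟨lam, l1, l2, l3, l4⟩ := J9 M T G w (by omega) hw0 hw'
    (fun h hh h' => D.stab J12 J13 χ hprim w hw h hh h') hG1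
  -- half of the group
  set I : Finset (ZMod M)ˣ := insert 1 (univ.filter (fun h => h ∈ G ∧ 0 < lam h)) with hI
  have hIG : ∀ h ∈ I, h ∈ G := by
    intro h hh
    rw [hI, mem_insert, mem_filter] at hh
    rcases hh with h1 | h1
    · rw [h1]
      exact G.one_mem
    · exact h1.2.1
  have hIpos : ∀ h ∈ I, h ≠ 1 → 0 < lam h := by
    intro h hh h0
    rw [hI, mem_insert, mem_filter] at hh
    rcases hh with h1 | h1
    · exact absurd h1 h0
    · exact h1.2.2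
  have h1I : (1 : (ZMod M)ˣ) ∈ I := mem_insert_self _ _
  have hne : (-1 : (ZMod M)ˣ) ≠ 1 := by
    intro h
    have h1 := congrArg (fun z : (ZMod M)ˣ => (z : ZMod M)) h
    simp only [Units.val_neg, Units.val_one] at h1
    have h2 : ((2 : ℕ) : ZMod M) = 0 := by
      push_cast
      linear_combination -h1
    rw [ZMod.natCast_eq_zero_iff] at h2
    have := Nat.le_of_dvd (by norm_num) h2
    omega
  have hlamneg1 : lam (-1) = 0 := by
    rw [l2 1 G.one_mem, l1, neg_zero]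
  have hIneg : ∀ h ∈ I, -h ∉ I := by
    intro h hh hh'
    by_cases h0 : h = 1
    · subst h0
      have := hIpos _ hh' hne
      omega
    · by_cases h0' : -h = 1
      · have h5 : h = -1 := by rw [← h0', neg_neg]
        subst h5
        have := hIpos _ hh h0
        omega
      · have h5 := hIpos _ hh h0
        have h6 := hIpos _ hh' h0'
        rw [l2 h (hIG h hh)] at h6
        omega
  have hIcov : ∀ h ∈ G, h ∈ I ∨ -h ∈ I := by
    intro h hh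
    by_cases h0 : h = 1
    · left
      rw [h0]
      exact h1I
    · by_cases h0' : h = -1
      · right
        rw [h0', neg_neg]
        exact h1I
      · have h5 := l3 h hh h0 h0'
        rcases lt_or_gt_of_ne h5 with h6 | h6
        · right
          rw [hI, mem_insert, mem_filter]
          refine Or.inr ⟨mem_univ _, ?_, ?_⟩
          · have := G.mul_mem hG1 hh
            rwa [neg_one_mul] at this
          · rw [l2 h hh]
            omega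
        · left
          rw [hI, mem_insert, mem_filter]
          exact Or.inr ⟨mem_univ _, hh, h6⟩
  have hIcard : I.card ≤ r := by
    have := half_card hM2 G hG1 I hIG hIneg
    omega
  -- the polynomial
  set F' := F.map (Int.castRingHom k) with hF'
  have hfev : ∀ x : k, F'.eval x = Polynomial.aeval x F := fun x => by
    rw [hF', eval_map, aeval_def]
    rfl
  have hF'deg : F'.natDegree ≤ m := natDegree_map_le.trans hdeg
  have hF'm : F'.coeff m ≠ 0 := by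
    rw [hF', coeff_map]
    exact hlead
  have hrel := rel_TT J1 J2 J3 J4 D hpQ ψ₁ hψ₁ χ hprim e F hS
  have hTTneg := TT_neg J5 J6 D hN0 hNk ψ₁ χ hξ1 hpar e heL F' c₁ (fun x => by rw [hfev, hfev, hF])
  have h2k : (2 : k) ≠ 0 := by
    have := hcast 2 (fun h => hp2 ((Nat.prime_dvd_prime_iff_eq hp Nat.prime_two).1 h))
    exact_mod_cast this
  -- lifts
  obtain ⟨σ, hσ⟩ := (ZMod.unitsMap_surjective D.dvd).hasRightInverse
  set V : (ZMod M)ˣ → ℕ → k := fun b s => VV M (N₁ * Q) ψ₁ e ξ F' (((1 + E * s : ℕ) : ZMod Q) * (σ b : ZMod Q)) with hV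
  have hsum : ∀ s : ℕ, ∑ b ∈ I, χ⁻¹ (σ b : ZMod Q) * V b s = 0 := by
    intro s
    set a : (ZMod Q)ˣ := ZMod.unitOfCoprime (1 + E * s) (cop_Es D s) with ha
    have haval : (a : ZMod Q) = ((1 + E * s : ℕ) : ZMod Q) := ZMod.coe_unitOfCoprime _ _
    have h5 := half_sum G I hG1 hIG hIneg hIcov h2k
      (fun b => TT D.dvd χ (ft (N₁ * Q) ψ₁ e F') (ZMod.unitsMap D.dvd a * b))
      (fun b _ => by
        simp only [mul_neg]
        exact hTTneg _) (hrel a)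
    have h6 : ∀ b ∈ I, TT D.dvd χ (ft (N₁ * Q) ψ₁ e F') (ZMod.unitsMap D.dvd a * b) =
        ((E : k) * χ⁻¹ (a : ZMod Q)) * (χ⁻¹ (σ b : ZMod Q) * V b s) := by
      intro b _
      have h7 := TT_eval J5 (N₁ * Q) D.dvd D.hQ D.hEM ψ₁ χ e F' (a * σ b)
      rw [map_mul, hσ b] at h7
      rw [h7, Units.val_mul, map_mul, haval]
      simp only [hV]
      ring
    rw [sum_congr rfl h6, ← mul_sum] at h5
    rcases mul_eq_zero.1 h5 with h8 | h8
    · exfalso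
      rcases mul_eq_zero.1 h8 with h9 | h9
      · exact hcast _ hpE h9
      · exact ((a.isUnit.map χ⁻¹).ne_zero) h9
    · exact h8
  -- numerators
  have hA := fun b : (ZMod M)ˣ => exists_A D hN0 hNk ψ₁ e ξ F' hF'deg (σ b : ZMod Q)
  choose A hA1 hA2 hA3 using hA
  set θ := e ((E : ℕ) : ZMod Q) with hθ
  have hθp : IsPrimitiveRoot θ M := by
    rw [hθ, henat]
    exact hζ.pow (NeZero.pos Q) (by rw [D.hQ]; ring)
  have hZ : ∀ (b : (ZMod M)ˣ) (s : ℕ), e (((1 + E * s : ℕ) : ZMod Q) * (σ b : ZMod Q)) =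
      e (σ b : ZMod Q) * θ ^ ((b : ZMod M).val * s) := by
    intro b s
    have h1 : (((σ b : ZMod Q).val : ℕ) : ZMod Q) = (σ b : ZMod Q) := by
      rw [ZMod.natCast_val, ZMod.cast_id', id_eq]
    have h2 : (σ b : ZMod Q).val ≡ (b : ZMod M).val [MOD M] := by
      rw [← ZMod.natCast_eq_natCast_iff]
      have h3 := congrArg (fun z : (ZMod M)ˣ => (z : ZMod M)) (hσ b)
      simp only [ZMod.unitsMap_def, Units.coe_map, MonoidHom.coe_coe] at h3
      rw [← h1, map_natCast] at h3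
      rw [h3, ZMod.natCast_val, ZMod.cast_id', id_eq]
    have h3 : ((1 + E * s : ℕ) : ZMod Q) * (σ b : ZMod Q) =
        (σ b : ZMod Q) + ((s * (σ b : ZMod Q).val : ℕ) : ZMod Q) * ((E : ℕ) : ZMod Q) := by
      push_cast
      rw [ZMod.natCast_val, ZMod.cast_id', id_eq]
      ring
    rw [h3, AddChar.map_add_eq_mul, e_nat]
    congr 1
    have h4 : s * (σ b : ZMod Q).val ≡ (b : ZMod M).val * s [MOD M] := by
      rw [mul_comm]
      exact h2.mul_right s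
    have h5 : ∀ n : ℕ, θ ^ n = θ ^ (n % M) := fun n => by
      conv_lhs => rw [← Nat.div_add_mod n M, pow_add, pow_mul, hθp.pow_eq_one, one_pow, one_mul]
    rw [← hθ, h5, h4, ← h5]
  have hBV : ∀ b ∈ I, ∀ s : ℕ, ((1 - X ^ (N₁ * E) : k[X]) ^ m).eval
      (e (σ b : ZMod Q) * θ ^ ((b : ZMod M).val * s)) * V b s =
      (A b).eval (e (σ b : ZMod Q) * θ ^ ((b : ZMod M).val * s)) := by
    intro b _ s
    rw [← hZ]
    refine hA2 b s ?_
    have h5 := heL (ZMod.unitOfCoprime (1 + E * s) (cop_Es D s) * σ b)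
    rw [Units.val_mul, ZMod.coe_unitOfCoprime] at h5
    exact h5
  have hex := J7 k (ZMod M)ˣ I 1 (m * (N₁ * E)) M θ ((1 - X ^ (N₁ * E) : k[X]) ^ m) A
    (fun b => (b : ZMod M).val) (fun b => e (σ b : ZMod Q)) V (fun b => χ⁻¹ (σ b : ZMod Q)) h1I hMpos
    (hcast _ hpM) hθp (B_deg _ _) (B_coeff hL0 m) (fun b _ => hA1 b)
    (fun b _ => (heu (σ b)).ne_zero (NeZero.ne Q)) hBV hsum
    (J10 M (m * (N₁ * E)) T G lam I l1 h1I hIG hIpos (Nat.mul_le_mul_right _ hIcard) (by omega) l4)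
  have hA0 : A 1 = 0 := by
    ext j
    rw [coeff_zero]
    rcases Nat.lt_or_ge j (m * (N₁ * E)) with hj | hj
    · rcases mul_eq_zero.1 (hex j hj) with h5 | h5
      · exact absurd h5 (((σ 1).isUnit.map χ⁻¹).ne_zero)
      · exact h5
    · exact coeff_eq_zero_of_degree_lt ((hA1 1).trans_le (by exact_mod_cast hj))
  obtain ⟨y₀, hy, hyc, hyξ⟩ := J14 k M E Q N₁ e ξ (by rw [he1]; exact hζ) D.hQ
    (Nat.Coprime.coprime_dvd_right (D.hEM.trans D.dvd) hN₁) (Nat.pos_of_ne_zero hN0) hξE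
  refine num_ne (W := 0) (d := 0) (phi M ψ₁ e ξ (σ 1 : ZMod Q)) hρ (c := -(((N₁ * E * M : ℕ) : k) *
    ((F'.coeff m * ((N₁ * Q : ℕ) : k)⁻¹ ^ m) * (m.factorial : k) * ((N₁ * E : ℕ) : k) ^ (m - 1))))
    ?_ (fun Z hZ => hA3 1 Z hZ hm1) hy ?_ hA0
  · rw [neg_ne_zero]
    have hfac : (m.factorial : k) ≠ 0 := hcast _ (fun h => by
      have := (hp.dvd_factorial).1 h
      omega)
    exact mul_ne_zero (hcast _ hpLM) (mul_ne_zero (mul_ne_zero (mul_ne_zero hF'm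
      (pow_ne_zero _ (inv_ne_zero hNk))) hfac) (pow_ne_zero _ (hcast _ hpL)))
  · unfold phi
    have h5 := M_mul D.dvd D.hQ D.hEM (σ 1) (hσ 1)
    rw [h5, if_pos hyξ]
    have h6 : IsUnit ((y₀ : ℕ) : ZMod N₁) := (ZMod.unitOfCoprime y₀ hyc).isUnit
    exact (h6.map ψ₁).ne_zero

end

end Pool.Agent.Q23.EG
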