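import Pool.Agent.Y18.GX.Core

/-!
# Arithmetic for general levels
-/

set_option autoImplicit false

namespace Pool.Agent.Q23.EG

open Finset Pool.Agent.Y18.GX

lemma lte {ℓ : ℕ} (hℓ : ℓ.Prime) {x : ℤ} (h1 : (ℓ : ℤ) ∣ x - 1) (h4 : ℓ = 2 → (4 : ℤ) ∣ x - 1) (n : ℕ) :
    emultiplicity (ℓ : ℤ) (x ^ n - 1) = emultiplicity (ℓ : ℤ) (x - 1) + emultiplicity (ℓ : ℤ) (n : ℤ) := by
  have hx : ¬ (ℓ : ℤ) ∣ x := by
    intro h
    have h2 := dvd_sub h h1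
    have h3 : x - (x - 1) = 1 := by ring
    rw [h3] at h2
    have h5 : ℓ ∣ 1 := by exact_mod_cast h2
    exact hℓ.one_lt.ne' (Nat.dvd_one.1 h5)
  rcases hℓ.eq_two_or_odd' with h2 | h2
  · subst h2
    have h := Int.two_pow_sub_pow' (x := x) (y := 1) n (h4 rfl) hx
    rw [one_pow] at h
    exact_mod_cast h
  · have h := Int.emultiplicity_pow_sub_pow hℓ h2 (x := x) (y := 1) h1 hx n
    rw [one_pow, ← Int.natCast_emultiplicity] at h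
    exact h

/-- `ℓ^i` divides `1 + q + ... + q^(d-1)` iff it divides `d` -/
lemma geom_dvd {ℓ : ℕ} (hℓ : ℓ.Prime) {q : ℕ} (hq : 1 < q) (h1 : ℓ ∣ q - 1) (h4 : ℓ = 2 → 4 ∣ q - 1) (d i : ℕ) :
    ℓ ^ i ∣ ∑ j ∈ range d, q ^ j ↔ ℓ ^ i ∣ d := by
  have hc : ((q - 1 : ℕ) : ℤ) = (q : ℤ) - 1 := by
    rw [Nat.cast_sub hq.le]
    push_cast
    ring
  have h1' : (ℓ : ℤ) ∣ (q : ℤ) - 1 := by
    rw [← hc]
    exact_mod_cast h1
  have h4' : ℓ = 2 → (4 : ℤ) ∣ (q : ℤ) - 1 := by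
    intro h
    rw [← hc]
    exact_mod_cast h4 h
  have h := lte hℓ h1' h4' d
  have hg : (q : ℤ) ^ d - 1 = ((q : ℤ) - 1) * ((∑ j ∈ range d, q ^ j : ℕ) : ℤ) := by
    push_cast
    rw [mul_comm]
    exact (geom_sum_mul (q : ℤ) d).symm
  have hp : Prime (ℓ : ℤ) := Nat.prime_iff_prime_int.1 hℓ
  rw [hg, emultiplicity_mul hp] at h
  have hne : (q : ℤ) - 1 ≠ 0 := by
    have : (1 : ℤ) < q := by exact_mod_cast hq
    omega
  have hfin : emultiplicity (ℓ : ℤ) ((q : ℤ) - 1) ≠ ⊤ := by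
    rw [← finiteMultiplicity_iff_emultiplicity_ne_top, Int.finiteMultiplicity_iff]
    exact ⟨by simpa using hℓ.one_lt.ne', hne⟩
  have h2 : emultiplicity (ℓ : ℤ) ((∑ j ∈ range d, q ^ j : ℕ) : ℤ) = emultiplicity (ℓ : ℤ) (d : ℤ) :=
    (ENat.addLECancellable_of_ne_top hfin).inj.1 h
  rw [Int.natCast_emultiplicity, Int.natCast_emultiplicity] at h2
  rw [pow_dvd_iff_le_emultiplicity, pow_dvd_iff_le_emultiplicity, h2]

/-- the same for a number whose prime factors all divide `q - 1` -/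
lemma geom_dvd' {n q : ℕ} (hq : 1 < q)
    (hn : ∀ ℓ, ℓ.Prime → ℓ ∣ n → ℓ ∣ q - 1 ∧ (ℓ = 2 → 4 ∣ q - 1)) (d : ℕ) :
    n ∣ ∑ j ∈ range d, q ^ j ↔ n ∣ d := by
  rw [Nat.dvd_iff_prime_pow_dvd_dvd, Nat.dvd_iff_prime_pow_dvd_dvd]
  have key : ∀ ℓ i : ℕ, ℓ.Prime → ℓ ^ i ∣ n → (ℓ ^ i ∣ ∑ j ∈ range d, q ^ j ↔ ℓ ^ i ∣ d) := by
    intro ℓ i hℓ hi
    rcases Nat.eq_zero_or_pos i with h0 | h0
    · subst h0
      simp
    · have h1 := hn ℓ hℓ ((dvd_pow_self ℓ (by omega)).trans hi)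
      exact geom_dvd hℓ hq h1.1 h1.2 d i
  constructor
  · intro h ℓ i hℓ hi
    exact (key ℓ i hℓ hi).1 (h ℓ i hℓ hi)
  · intro h ℓ i hℓ hi
    exact (key ℓ i hℓ hi).2 (h ℓ i hℓ hi)

section
variable {k : Type*} [Field k]

/-- the trace of `z` vanishes if `z^(q-1)` is not `1` -/
theorem trace_zeroG {q R : ℕ} (hq : 1 < q) (hR0 : R ≠ 0)
    (hR : ∀ ℓ, ℓ.Prime → ℓ ∣ R → ℓ ∣ q - 1 ∧ (ℓ = 2 → 4 ∣ q - 1)) (z : k) (hz : z ≠ 0)
    (h1 : z ^ (q - 1) ≠ 1) (h2 : (z ^ (q - 1)) ^ R = 1) :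
    ∑ j ∈ range R, z ^ q ^ j = 0 := by
  set w := z ^ (q - 1) with hw
  set n := orderOf w with hn
  have hnR : n ∣ R := orderOf_dvd_of_pow_eq_one h2
  have hn1 : n ≠ 1 := fun h => h1 (orderOf_eq_one_iff.1 h)
  obtain ⟨ℓ, hℓ, hℓn⟩ := Nat.exists_prime_and_dvd hn1
  have hn0 : 0 < n := Nat.pos_of_ne_zero (fun h => by
    rw [h] at hnR
    exact hR0 (Nat.eq_zero_of_zero_dvd hnR))
  have hRn : ∀ ℓ, ℓ.Prime → ℓ ∣ n → ℓ ∣ q - 1 ∧ (ℓ = 2 → 4 ∣ q - 1) := fun ℓ h h' => hR ℓ h (h'.trans hnR)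
  obtain ⟨d, hd⟩ := hℓn
  have hd0 : 0 < d := Nat.pos_of_ne_zero (fun h => by
    rw [h, mul_zero] at hd
    omega)
  have hpw : ∀ j, z ^ q ^ j = z * w ^ (∑ i ∈ range j, q ^ i) := by
    intro j
    have e1 : q ^ j = 1 + (q - 1) * ∑ i ∈ range j, q ^ i := by
      have := pow_sub_one_geom q j hq.le
      have h3 : 1 ≤ q ^ j := Nat.one_le_pow _ _ (by omega)
      omega
    rw [e1, pow_add, pow_one, pow_mul]
  -- the factor
  set η := w ^ (∑ i ∈ range d, q ^ i) with hη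
  have hη1 : η ≠ 1 := by
    intro h
    have h3 := orderOf_dvd_of_pow_eq_one h
    rw [← hn, geom_dvd' hq hRn] at h3
    have h4 := Nat.le_of_dvd hd0 h3
    have h5 : 2 * d ≤ ℓ * d := Nat.mul_le_mul_right _ hℓ.two_le
    omega
  have hηℓ : η ^ ℓ = 1 := by
    rw [hη, ← pow_mul]
    have h3 : d ∣ ∑ i ∈ range d, q ^ i := by
      rw [geom_dvd' hq (fun ℓ' h h' => hRn ℓ' h (h'.trans ⟨ℓ, by rw [hd]; ring⟩))]
    obtain ⟨v, hv⟩ := h3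
    rw [hv, show d * v * ℓ = n * v by rw [hd]; ring, pow_mul, hn, pow_orderOf_eq_one, one_pow]
  have hηq : ∀ j, η ^ q ^ j = η := by
    intro j
    obtain ⟨v, hv⟩ := (hRn ℓ hℓ ⟨d, hd⟩).1
    have e1 : q ^ j = 1 + (q - 1) * ∑ i ∈ range j, q ^ i := by
      have := pow_sub_one_geom q j hq.le
      have h3 : 1 ≤ q ^ j := Nat.one_le_pow _ _ (by omega)
      omega
    rw [e1, pow_add, pow_one, hv, mul_assoc, pow_mul, hηℓ, one_pow, mul_one]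
  have hper : ∀ j, z ^ q ^ (j + R) = z ^ q ^ j := by
    intro j
    have h3 : z ^ q ^ R = z := by
      rw [hpw]
      have h4 : n ∣ ∑ i ∈ range R, q ^ i := (geom_dvd' hq hRn R).2 hnR
      rw [orderOf_dvd_iff_pow_eq_one.1 h4, mul_one]
    rw [pow_add, mul_comm, pow_mul, h3]
  have h6 := periodic_shift (fun j => z ^ q ^ j) R hper d
  have h7 : ∀ j, z ^ q ^ (j + d) = η * z ^ q ^ j := by
    intro j
    have h3 : z ^ q ^ d = z * η := hpw d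
    rw [pow_add, mul_comm, pow_mul, h3, mul_pow, hηq, mul_comm]
  simp only [h7] at h6
  rw [← Finset.mul_sum] at h6
  have h8 : (η - 1) * ∑ j ∈ range R, z ^ q ^ j = 0 := by
    rw [sub_mul, one_mul, h6, sub_self]
  rcases mul_eq_zero.1 h8 with h9 | h9
  · exact absurd (sub_eq_zero.1 h9) hη1
  · exact h9

end

/-- the exponent of the units modulo `W` -/
lemma exp_dvd {W r : ℕ} (hW : ∀ ℓ, ℓ.Prime → ℓ ∣ W → (ℓ - 1) ∣ r) {x : ℕ} (hx : x.Coprime W) :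
    x ^ (r * W) ≡ 1 [MOD W] := by
  refine (Nat.modEq_iff_dvd.2 ?_).symm
  rcases Nat.eq_zero_or_pos x with h0 | h0
  · subst h0
    rw [Nat.coprime_zero_left] at hx
    rw [hx]
    exact one_dvd _
  have h1 : 1 ≤ x ^ (r * W) := Nat.one_le_pow _ _ h0
  rw [← Nat.cast_sub h1]
  apply Int.natCast_dvd_natCast.2
  rw [Nat.dvd_iff_prime_pow_dvd_dvd]
  intro ℓ i hℓ hi
  rcases Nat.eq_zero_or_pos i with h2 | h2
  · subst h2
    simp
  · have h3 : x.Coprime (ℓ ^ i) := Nat.Coprime.coprime_dvd_right hi hx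
    have h4 := Nat.ModEq.pow_totient h3
    rw [Nat.totient_prime_pow hℓ h2] at h4
    have h5 : ℓ ^ (i - 1) * (ℓ - 1) ∣ r * W := by
      rw [mul_comm r W]
      exact Nat.mul_dvd_mul ((pow_dvd_pow _ (by omega)).trans hi)
        (hW ℓ hℓ ((dvd_pow_self ℓ (by omega)).trans hi))
    obtain ⟨v, hv⟩ := h5
    have h6 := h4.pow v
    rw [one_pow, ← pow_mul, ← hv] at h6
    exact (Nat.modEq_iff_dvd' h1).1 h6.symm

end Pool.Agent.Q23.EG
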