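import Pool.Agent.Q23.EG.Num

/-!
# Generating functions at roots of unity
-/

set_option autoImplicit false

namespace Pool.Agent.Q23.EG

open Finset Polynomial Pool.Agent.Y18.GX

section
variable {k : Type*} [Field k]

lemma per_mul {φ : ℕ → k} {L : ℕ} (hφ : ∀ y, φ (y + L) = φ y) (y W : ℕ) : φ (y + L * W) = φ y := by
  induction W with
  | zero => simp
  | succ W ih => rw [Nat.mul_succ, ← add_assoc, hφ, ih]

lemma sum_zero {φ : ℕ → k} {L W : ℕ} (hφ : ∀ y, φ (y + L) = φ y) {Z : k} (hZ : Z ^ (L * W) = 1)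
    (hZL : Z ^ L ≠ 1) : ∑ y ∈ range (L * W), φ y * Z ^ y = 0 := by
  have hper : ∀ y, φ (y + L * W) * Z ^ (y + L * W) = φ y * Z ^ y := by
    intro y
    rw [per_mul hφ, pow_add, hZ, mul_one]
  have h := periodic_shift (fun y => φ y * Z ^ y) (L * W) hper L
  have h1 : ∀ y, φ (y + L) * Z ^ (y + L) = Z ^ L * (φ y * Z ^ y) := by
    intro y
    rw [hφ, pow_add]
    ring
  simp only [h1] at h
  rw [← mul_sum] at h
  have h2 : (Z ^ L - 1) * ∑ y ∈ range (L * W), φ y * Z ^ y = 0 := by
    rw [sub_mul, one_mul, h, sub_self]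
  rcases mul_eq_zero.1 h2 with h3 | h3
  · exact absurd (sub_eq_zero.1 h3) hZL
  · exact h3

lemma shift_sum (g : ℕ → k) (N L : ℕ) :
    ∑ y ∈ range N, g (y + L) = ∑ y ∈ range N, g y + ∑ y ∈ range L, (g (y + N) - g y) := by
  have h1 : ∑ y ∈ range (L + N), g y = ∑ y ∈ range L, g y + ∑ y ∈ range N, g (L + y) := Finset.sum_range_add _ _ _
  have h2 : ∑ y ∈ range (N + L), g y = ∑ y ∈ range N, g y + ∑ y ∈ range L, g (N + y) := Finset.sum_range_add _ _ _
  rw [add_comm L N, h2] at h1
  have h3 : ∑ y ∈ range N, g (y + L) = ∑ y ∈ range N, g (L + y) :=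
    Finset.sum_congr rfl fun y _ => by rw [add_comm]
  have h4 : ∑ y ∈ range L, g (y + N) = ∑ y ∈ range L, g (N + y) :=
    Finset.sum_congr rfl fun y _ => by rw [add_comm]
  rw [h3, Finset.sum_sub_distrib, h4]
  linear_combination -h1

theorem exists_num {L W : ℕ} (hL : 0 < L) (φ : ℕ → k) (hφ : ∀ y, φ (y + L) = φ y) (d : ℕ) :
    ∀ F : k[X], F.natDegree ≤ d → ∃ A : k[X], A.degree < (d * L : ℕ) ∧
      (∀ Z : k, Z ^ (L * W) = 1 → Z ^ L ≠ 1 →
        (1 - Z ^ L) ^ d * ∑ y ∈ range (L * W), φ y * F.eval (y : k) * Z ^ y = A.eval Z) ∧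
      (∀ Z : k, Z ^ L = 1 → 1 ≤ d → A.eval Z =
        -(((L * W : ℕ) : k) * (F.coeff d * (d.factorial : k) * (L : k) ^ (d - 1))) *
          ∑ y ∈ range L, φ y * Z ^ y) := by
  induction d with
  | zero =>
    intro F hF
    refine ⟨0, by rw [degree_zero]; exact WithBot.bot_lt_coe _, ?_, ?_⟩
    · intro Z hZ hZL
      have hc : F = C (F.coeff 0) := eq_C_of_natDegree_le_zero hF
      rw [pow_zero, one_mul, eval_zero, hc]
      simp only [eval_C]
      have h1 : ∀ y : ℕ, φ y * F.coeff 0 * Z ^ y = F.coeff 0 * (φ y * Z ^ y) := fun y => by ring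
      simp only [h1]
      rw [← mul_sum, sum_zero hφ hZ hZL, mul_zero]
    · intro Z _ h
      omega
  | succ d ih =>
    intro F hF
    set G : k[X] := taylor (-(L : k)) F with hG
    have hGdeg : G.natDegree ≤ d + 1 := by rw [hG, natDegree_taylor]; exact hF
    have hGtop : G.coeff (d + 1) = F.coeff (d + 1) := taylor_coeff_top F (d + 1) hF _
    have hGd : G.coeff d = F.coeff d + ((d + 1 : ℕ) : k) * F.coeff (d + 1) * (-(L : k)) :=
      taylor_coeff_sub F (d + 1) (by omega) hF _
    have hDdeg : (F - G).natDegree ≤ d := by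
      rw [natDegree_le_iff_coeff_eq_zero]
      intro i hi
      rw [coeff_sub]
      rcases Nat.lt_or_ge (d + 1) i with h | h
      · rw [coeff_eq_zero_of_natDegree_lt (by omega), coeff_eq_zero_of_natDegree_lt (by omega), sub_self]
      · have : i = d + 1 := by omega
        rw [this, hGtop, sub_self]
    obtain ⟨A₀, h1, h2, h3⟩ := ih (F - G) hDdeg
    set w : ℕ → k := fun y => φ y * (G.eval ((y : k) + (L * W : ℕ)) - G.eval (y : k)) with hw
    set U : k[X] := ∑ y ∈ range L, C (w y) * X ^ y with hU
    have hUdeg : U.degree < (L : ℕ) := by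
      rw [degree_lt_iff_coeff_zero]
      intro i hi
      rw [hU, finsetSum_coeff]
      refine Finset.sum_eq_zero fun y hy => ?_
      rw [coeff_C_mul_X_pow, if_neg]
      have := mem_range.1 hy
      omega
    have hUev : ∀ Z : k, U.eval Z = ∑ y ∈ range L, w y * Z ^ y := by
      intro Z
      rw [hU, eval_finsetSum]
      refine Finset.sum_congr rfl fun y _ => ?_
      simp
    have hP : ((1 - X ^ L : k[X]) ^ d).natDegree ≤ d * L := by
      refine natDegree_pow_le.trans (Nat.mul_le_mul_left _ ?_)
      refine (natDegree_sub_le _ _).trans ?_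
      rw [natDegree_one, natDegree_X_pow]
      simp
    refine ⟨A₀ - (1 - X ^ L) ^ d * U, ?_, ?_, ?_⟩
    · refine (degree_sub_le _ _).trans_lt (max_lt ?_ ?_)
      · refine h1.trans_le ?_
        exact_mod_cast Nat.mul_le_mul_right L (by omega : d ≤ d + 1)
      · rw [degree_lt_iff_coeff_zero]
        intro i hi
        by_cases hU0 : U = 0
        · rw [hU0, mul_zero, coeff_zero]
        · apply coeff_eq_zero_of_natDegree_lt
          have h5 : U.natDegree < L := (natDegree_lt_iff_degree_lt hU0).2 hUdeg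
          refine lt_of_le_of_lt (natDegree_mul_le.trans (Nat.add_le_add_right hP _)) ?_
          have : (d + 1) * L = d * L + L := by ring
          omega
    · intro Z hZ hZL
      rw [eval_sub, eval_mul, eval_pow, eval_sub, eval_one, eval_pow, eval_X, ← h2 Z hZ hZL, hUev]
      -- the difference
      set g : ℕ → k := fun y => φ y * G.eval (y : k) * Z ^ y with hg
      have e1 : ∀ y : ℕ, g (y + L) = Z ^ L * (φ y * F.eval (y : k) * Z ^ y) := by
        intro y
        rw [hg]
        simp only
        rw [hφ, hG, taylor_eval]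
        have : (((y + L : ℕ) : k) + -(L : k)) = (y : k) := by push_cast; ring
        rw [this, pow_add]
        ring
      have e2 := shift_sum g (L * W) L
      simp only [e1] at e2
      rw [← mul_sum] at e2
      have e3 : ∑ y ∈ range L, (g (y + L * W) - g y) = ∑ y ∈ range L, w y * Z ^ y := by
        refine Finset.sum_congr rfl fun y _ => ?_
        rw [hg, hw]
        simp only
        rw [per_mul hφ, pow_add, hZ]
        push_cast
        ring
      rw [e3] at e2
      have e4 : ∑ y ∈ range (L * W), φ y * (F - G).eval (y : k) * Z ^ y =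
          ∑ y ∈ range (L * W), φ y * F.eval (y : k) * Z ^ y - ∑ y ∈ range (L * W), g y := by
        rw [← Finset.sum_sub_distrib]
        refine Finset.sum_congr rfl fun y _ => ?_
        rw [eval_sub, hg]
        simp only
        ring
      rw [e4, pow_succ]
      linear_combination (-(1 - Z ^ L) ^ d) * e2
    · intro Z hZ _
      rw [eval_sub, eval_mul, eval_pow, eval_sub, eval_one, eval_pow, eval_X, hZ, sub_self]
      rcases Nat.eq_zero_or_pos d with h0 | h0
      · subst h0
        have hA0 : A₀ = 0 := by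
          rw [← degree_eq_bot]
          rw [zero_mul] at h1
          exact Nat.WithBot.lt_zero_iff.1 (by exact_mod_cast h1)
        rw [hA0, eval_zero, pow_zero, one_mul, hUev, zero_sub, ← neg_mul_eq_neg_mul]
        congr 1
        rw [mul_sum]
        refine Finset.sum_congr rfl fun y _ => ?_
        rw [hw]
        simp only
        have e5 : ∀ x : k, G.eval x = G.coeff 0 + G.coeff 1 * x := by
          intro x
          rw [eval_eq_sum_range' (n := 2) (by omega), Finset.sum_range_succ, Finset.sum_range_succ,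
            Finset.sum_range_zero]
          ring
        rw [e5, e5, hGtop]
        simp
        ring
      · rw [zero_pow (by omega), zero_mul, sub_zero, h3 Z hZ h0, coeff_sub, hGd]
        have e6 : (L : k) ^ (d + 1 - 1) = (L : k) ^ (d - 1) * L := by
          rw [← pow_succ]
          congr 1
          omega
        rw [e6, Nat.factorial_succ]
        push_cast
        ring

/-- the numerator is not zero -/
theorem num_ne {L W d : ℕ} (φ : ℕ → k) {ρ : k} (hρ : IsPrimitiveRoot ρ L) {A : k[X]} {c : k} (hc : c ≠ 0)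
    (hA : ∀ Z : k, Z ^ L = 1 → A.eval Z = c * ∑ y ∈ range L, φ y * Z ^ y)
    {y₀ : ℕ} (hy₀ : y₀ < L) (hφ : φ y₀ ≠ 0) : A ≠ 0 := by
  intro h0
  set P : k[X] := ∑ y ∈ range L, C (φ y) * X ^ y with hP
  have hPdeg : P.degree < (L : ℕ) := by
    rw [degree_lt_iff_coeff_zero]
    intro i hi
    rw [hP, finsetSum_coeff]
    refine Finset.sum_eq_zero fun y hy => ?_
    rw [coeff_C_mul_X_pow, if_neg]
    have := mem_range.1 hy
    omega
  have hPev : ∀ Z : k, Z ^ L = 1 → P.eval Z = 0 := by
    intro Z hZ
    have h1 := hA Z hZ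
    rw [h0, eval_zero] at h1
    have h2 : P.eval Z = ∑ y ∈ range L, φ y * Z ^ y := by
      rw [hP, eval_finsetSum]
      refine Finset.sum_congr rfl fun y _ => ?_
      simp
    rw [h2]
    exact (mul_eq_zero.1 h1.symm).resolve_left hc
  have hP0 : P = 0 := by
    refine eq_zero_of_degree_lt_of_eval_index_eq_zero (s := range L) (f := P) (v := fun i : ℕ => ρ ^ i) ?_
      (by rwa [card_range]) ?_
    · intro i hi j hj hij
      exact hρ.pow_inj (mem_range.1 hi) (mem_range.1 hj) hij
    · intro i _
      apply hPev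
      rw [← pow_mul, mul_comm, pow_mul, hρ.pow_eq_one, one_pow]
  apply hφ
  have h3 : P.coeff y₀ = φ y₀ := by
    rw [hP, finsetSum_coeff]
    simp only [coeff_C_mul_X_pow]
    rw [Finset.sum_ite_eq (range L) y₀, if_pos (mem_range.2 hy₀)]
  rw [← h3, hP0, coeff_zero]

end

end Pool.Agent.Q23.EG
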