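import Pool.Agent.Q23.EG.Grp

/-!
# The relations
-/

set_option autoImplicit false

namespace Pool.Agent.Q23.EG

open Finset Polynomial Pool.Agent.Y18.GX

section
variable {k : Type} [Field k]

open scoped Classical in
/-- the sum over a class modulo `M` -/
noncomputable def TT {M Q : ℕ} [NeZero Q] (hQ : M ∣ Q) (χ : MulChar (ZMod Q) k) (f : ZMod Q → k)
    (x : (ZMod M)ˣ) : k :=
  ∑ c ∈ univ.filter (fun c : (ZMod Q)ˣ => ZMod.unitsMap hQ c = x), χ⁻¹ (c : ZMod Q) * f (c : ZMod Q)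

/-- the finite Fourier transform -/
noncomputable def ft {N₁ Q : ℕ} (N : ℕ) (ψ₁ : MulChar (ZMod N₁) k) (e : AddChar (ZMod Q) k) (F : k[X])
    (c : ZMod Q) : k :=
  ∑ y ∈ range N, (ψ₁ (y : ZMod N₁) * F.eval ((y : k) / (N : ℕ))) * e (c * (y : ZMod Q))

lemma TT_eval (J5 : S_eval) {M E Q N₁ : ℕ} [NeZero Q] [NeZero M] (N : ℕ) (hMQ : M ∣ Q) (hQ : Q = M * E)
    (hEM : E ∣ M) (ψ₁ : MulChar (ZMod N₁) k) (χ : MulChar (ZMod Q) k) (e : AddChar (ZMod Q) k) (F : k[X])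
    (c : (ZMod Q)ˣ) : TT hMQ χ (ft N ψ₁ e F) (ZMod.unitsMap hMQ c) =
      (E : k) * χ⁻¹ (c : ZMod Q) * VV M N ψ₁ e (χ⁻¹ ((1 + M : ℕ) : ZMod Q)) F (c : ZMod Q) := by
  have h := J5 k M E Q N hMQ χ e (fun y => ψ₁ (y : ZMod N₁) * F.eval ((y : k) / (N : ℕ))) hQ hEM c
  unfold TT ft
  rw [h]
  unfold VV
  congr 1
  refine sum_congr rfl fun y _ => ?_
  split_ifs <;> ring

lemma e_nat {Q : ℕ} (e : AddChar (ZMod Q) k) (x : ZMod Q) (n : ℕ) : e ((n : ZMod Q) * x) = e x ^ n := by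
  rw [← AddChar.map_nsmul_eq_pow, nsmul_eq_mul]

variable {p g : ℕ} [Fact p.Prime] [CharP k p]

open scoped Classical in
/-- the sums over the classes modulo `M` of a coset vanish -/
lemma rel_TT (J1 : S_gauss) (J2 : S_frob) (J3 : S_trace) (J4 : S_fiber) {u M E Q N₁ : ℕ} [NeZero Q] [NeZero M]
    (D : Num (p ^ g) u M E Q) (hpQ : ¬ p ∣ Q) (ψ₁ : MulChar (ZMod N₁) k) (hψ₁ : ∀ a, ψ₁ a ^ p ^ g = ψ₁ a)
    (χ : MulChar (ZMod Q) k) (hprim : ∀ ℓ : ℕ, ℓ.Prime → ℓ ∣ Q → χ ((1 + Q / ℓ : ℕ) : ZMod Q) ≠ 1)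
    (e : AddChar (ZMod Q) k) (F : Polynomial ℤ)
    (hS : ∑ y ∈ range (N₁ * Q), ψ₁ (y : ZMod N₁) * χ (y : ZMod Q) *
      Polynomial.aeval ((y : k) / (N₁ * Q : ℕ)) F = 0) (a : (ZMod Q)ˣ) :
    ∑ b ∈ univ.filter (fun b : (ZMod M)ˣ => b ∈ GG D.dvd χ (p ^ g - 1)),
      TT D.dvd χ (ft (N₁ * Q) ψ₁ e (F.map (Int.castRingHom k))) (ZMod.unitsMap D.dvd a * b) = 0 := by
  classical
  have hp : p.Prime := Fact.out
  have hfev : ∀ x : k, (F.map (Int.castRingHom k)).eval x = Polynomial.aeval x F := fun x => by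
    rw [eval_map, aeval_def]
    rfl
  set f := ft (N₁ * Q) ψ₁ e (F.map (Int.castRingHom k)) with hf
  have hpc : p.Coprime Q := (Nat.Prime.coprime_iff_not_dvd hp).2 hpQ
  have hQk : (Q : k) ≠ 0 := fun h => hpQ ((CharP.cast_eq_zero_iff k p Q).1 h)
  have h1 : ∑ c : ZMod Q, χ⁻¹ c * f c = 0 := by
    have h := J1 k Q χ e (fun ℓ hℓ hℓQ => ⟨D.sq_dvd hℓ hℓQ, hprim ℓ hℓ hℓQ⟩) (N₁ * Q)
      (fun y => ψ₁ (y : ZMod N₁) * (F.map (Int.castRingHom k)).eval ((y : k) / (N₁ * Q : ℕ))) (by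
        rw [← hS]
        refine sum_congr rfl fun y _ => ?_
        rw [hfev]
        ring)
    exact h
  have h2 : ∀ c, f c ^ p ^ g = f (((p ^ g : ℕ) : ZMod Q) * c) := by
    intro c
    rw [hf]
    unfold ft
    rw [sum_pow_char_pow]
    refine sum_congr rfl fun y _ => ?_
    rw [mul_pow, mul_pow, hψ₁, hfev, frob_fix]
    congr 1
    rw [mul_assoc, e_nat]
  have h3 := J2 k p g Q χ f hpc h2 h1
  have h4 := J3 k (p ^ g) Q χ f D.hq1 hQk (fun ℓ hℓ hℓQ => D.trace hℓ hℓQ) h3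
  have h5 := J4 k (p ^ g) u M E Q D.dvd χ f D.hQ D.hEM D.hq h4 a
  unfold TT
  convert h5

/-- parity -/
lemma TT_neg (J5 : S_eval) (J6 : S_par) {q u M E Q N₁ m : ℕ} [NeZero Q] [NeZero M] (D : Num q u M E Q)
    (hN0 : N₁ ≠ 0) (hNk : ((N₁ * Q : ℕ) : k) ≠ 0) (ψ₁ : MulChar (ZMod N₁) k) (χ : MulChar (ZMod Q) k)
    (hξ : χ⁻¹ ((1 + M : ℕ) : ZMod Q) ≠ 1) (hpar : ψ₁ (-1) * χ (-1) = (-1) ^ m)
    (e : AddChar (ZMod Q) k) (he : ∀ c : (ZMod Q)ˣ, e (c : ZMod Q) ^ (N₁ * E) ≠ 1) (F : k[X]) (c₁ : k)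
    (hF : ∀ x : k, F.eval (1 - x) = (-1) ^ m * F.eval x + c₁) (x : (ZMod M)ˣ) :
    TT D.dvd χ (ft (N₁ * Q) ψ₁ e F) (-x) = TT D.dvd χ (ft (N₁ * Q) ψ₁ e F) x := by
  obtain ⟨c, rfl⟩ := ZMod.unitsMap_surjective D.dvd x
  have h1 : -ZMod.unitsMap D.dvd c = ZMod.unitsMap D.dvd (-c) := by
    apply Units.ext
    rw [Units.val_neg, ZMod.unitsMap_def, Units.coe_map, Units.coe_map, MonoidHom.coe_coe, Units.val_neg, map_neg]
  have h2 := TT_eval J5 (N₁ * Q) D.dvd D.hQ D.hEM ψ₁ χ e F c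
  have h3 := TT_eval J5 (N₁ * Q) D.dvd D.hQ D.hEM ψ₁ χ e F (-c)
  rw [h1, h2, h3, Units.val_neg, J6 k M E Q N₁ m ψ₁ e _ c₁ F D.hQ hN0 hNk hξ hF (c : ZMod Q) (he c)]
  have h4 : χ⁻¹ (-(c : ZMod Q)) = χ (-1) * χ⁻¹ (c : ZMod Q) := by
    have e1 : -(c : ZMod Q) = (-1) * (c : ZMod Q) := by ring
    rw [e1, map_mul]
    congr 1
    rw [MulChar.inv_apply_eq_inv']
    apply inv_eq_of_mul_eq_one_right
    rw [← map_mul, neg_one_mul, neg_neg, map_one]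
  rw [h4]
  have h5 : ψ₁ (-1) * χ (-1) * (-1) ^ m = 1 := by
    rw [hpar, ← mul_pow]
    norm_num
  linear_combination ((E : k) * χ⁻¹ (c : ZMod Q) *
    VV M (N₁ * Q) ψ₁ e (χ⁻¹ ((1 + M : ℕ) : ZMod Q)) F (c : ZMod Q)) * h5

open scoped Classical in
/-- the sum over half of the group -/
lemma half_sum {M : ℕ} [NeZero M] (G : Subgroup (ZMod M)ˣ) (I : Finset (ZMod M)ˣ) (hG : (-1 : (ZMod M)ˣ) ∈ G)
    (hI : ∀ h ∈ I, h ∈ G) (hneg : ∀ h ∈ I, -h ∉ I) (hcov : ∀ h ∈ G, h ∈ I ∨ -h ∈ I) (h2 : (2 : k) ≠ 0)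
    (f : (ZMod M)ˣ → k) (hf : ∀ h ∈ G, f (-h) = f h)
    (h0 : ∑ b ∈ univ.filter (fun b : (ZMod M)ˣ => b ∈ G), f b = 0) : ∑ b ∈ I, f b = 0 := by
  have h1 : univ.filter (fun b : (ZMod M)ˣ => b ∈ G) = I ∪ I.image (fun h => -h) := by
    ext h
    simp only [mem_filter, mem_univ, true_and, mem_union, mem_image]
    constructor
    · intro hh
      rcases hcov h hh with h3 | h3
      · exact Or.inl h3
      · exact Or.inr ⟨-h, h3, neg_neg h⟩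
    · rintro (h3 | ⟨c, hc, rfl⟩)
      · exact hI h h3
      · have h3 := G.mul_mem hG (hI c hc)
        rwa [neg_one_mul] at h3
  rw [h1, sum_union, sum_image] at h0
  · have h3 : ∑ b ∈ I, f (-b) = ∑ b ∈ I, f b := sum_congr rfl fun b hb => hf b (hI b hb)
    rw [h3, ← two_mul] at h0
    exact (mul_eq_zero.1 h0).resolve_left h2
  · intro a _ b _ hab
    exact neg_injective hab
  · rw [disjoint_left]
    intro a ha hb
    obtain ⟨c, hc, hca⟩ := mem_image.1 hb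
    apply hneg c hc
    rw [hca]
    exact ha

end

end Pool.Agent.Q23.EG
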