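import Pool.Agent.Q23.EG.Num
import Pool.Agent.Q23.EG.Poly

/-!
# Project EG: statements of the lemma jobs

`Num.lean` has `lte`, `geom_dvd`, `geom_dvd'`, `trace_zeroG`, `exp_dvd`; `Poly.lean` has `per_mul`, `sum_zero`,
`exists_num`, `num_ne`. In all statements `k` is a field, `Q = M E`, `e` is an additive character of `ZMod Q`.
-/

set_option autoImplicit false

namespace Pool.Agent.Q23.EG

open Finset Polynomial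

/-- the units `c` with `χ c ^ n = 1` -/
def kerPow {k : Type} [Field k] {Q : ℕ} (χ : MulChar (ZMod Q) k) (n : ℕ) : Subgroup (ZMod Q)ˣ where
  carrier := {c | χ (c : ZMod Q) ^ n = 1}
  mul_mem' := by
    intro a b ha hb
    simp only [Set.mem_setOf_eq, Units.val_mul, map_mul, mul_pow] at *
    rw [ha, hb, one_mul]
  one_mem' := by simp
  inv_mem' := by
    intro a ha
    simp only [Set.mem_setOf_eq] at *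
    have h1 : χ ((a⁻¹ : (ZMod Q)ˣ) : ZMod Q) ^ n * χ (a : ZMod Q) ^ n = 1 := by
      rw [← mul_pow, ← map_mul, ← Units.val_mul, inv_mul_cancel, Units.val_one, map_one, one_pow]
    rwa [ha, mul_one] at h1

/-- its image modulo `M` -/
def GG {k : Type} [Field k] {M Q : ℕ} (hQ : M ∣ Q) (χ : MulChar (ZMod Q) k) (n : ℕ) : Subgroup (ZMod M)ˣ :=
  (kerPow χ n).map (ZMod.unitsMap hQ)

open scoped Classical in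
/-- the reduced sum -/
noncomputable def VV {k : Type} [Field k] {Q N₁ : ℕ} (M N : ℕ) (ψ₁ : MulChar (ZMod N₁) k) (e : AddChar (ZMod Q) k)
    (ξ : k) (F : k[X]) (c : ZMod Q) : k :=
  ∑ y ∈ range N, (if ξ * e ((M : ZMod Q) * c * (y : ZMod Q)) = 1 then ψ₁ (y : ZMod N₁) else 0) *
    F.eval ((y : k) / (N : ℕ)) * e c ^ y

/-- A1. For `y` a unit substitute `c ↦ c y⁻¹`: the inner sum over `c` is `χ y` times the Gauss sum. For `y` not a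
unit let `ℓ` be a prime dividing `y` and `Q`, and `u = 1 + Q / ℓ`; this is a unit since `ℓ ^ 2 ∣ Q`, and
`e (c u y) = e (c y)`. Substituting `c ↦ c u` gives `G = χ⁻¹ u * G`, so `G = 0`. Then sum over `y`. -/
def S_gauss : Prop := ∀ (k : Type) [Field k] (Q : ℕ) [NeZero Q] (χ : MulChar (ZMod Q) k) (e : AddChar (ZMod Q) k),
  (∀ ℓ : ℕ, ℓ.Prime → ℓ ∣ Q → ℓ ^ 2 ∣ Q ∧ χ ((1 + Q / ℓ : ℕ) : ZMod Q) ≠ 1) →
  ∀ (N : ℕ) (w : ℕ → k), ∑ y ∈ range N, w y * χ (y : ZMod Q) = 0 →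
  ∑ c : ZMod Q, χ⁻¹ c * ∑ y ∈ range N, w y * e (c * (y : ZMod Q)) = 0

/-- A2. Raise to the power `(p ^ g) ^ j` (Frobenius is a ring homomorphism): `∑ (χ⁻¹ c) ^ q ^ j * f (q ^ j * c) = 0`.
Substitute `c ↦ (q ^ j)⁻¹ c` (`q` is a unit modulo `Q`) and divide by `(χ⁻¹ (q ^ j)⁻¹) ^ q ^ j ≠ 0`. -/
def S_frob : Prop := ∀ (k : Type) [Field k] (p g Q : ℕ) [Fact p.Prime] [CharP k p] [NeZero Q]
  (χ : MulChar (ZMod Q) k) (f : ZMod Q → k), p.Coprime Q →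
  (∀ c, f c ^ p ^ g = f (((p ^ g : ℕ) : ZMod Q) * c)) → ∑ c : ZMod Q, χ⁻¹ c * f c = 0 →
  ∀ j : ℕ, ∑ c : ZMod Q, (χ⁻¹ c) ^ (p ^ g) ^ j * f c = 0

open scoped Classical in
/-- A3. Multiply the relation for `j` by `(χ a) ^ q ^ j` and sum over `j < Q`. With `z = χ⁻¹ c * χ a`
(only units `c` matter) the coefficient of `f c` is `∑ j < Q, z ^ q ^ j`. By `exp_dvd` (with `W = Q`, `r = q - 1`)
`(z ^ (q - 1)) ^ Q = 1`. If `z ^ (q - 1) ≠ 1` the coefficient is zero by `trace_zeroG` (with `R = Q`), otherwise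
`z ^ q ^ j = z` and it is `Q * z`. The condition `z ^ (q - 1) = 1` is `χ (c * a⁻¹) ^ (q - 1) = 1`. -/
def S_trace : Prop := ∀ (k : Type) [Field k] (q Q : ℕ) [NeZero Q] (χ : MulChar (ZMod Q) k) (f : ZMod Q → k),
  1 < q → (Q : k) ≠ 0 →
  (∀ ℓ : ℕ, ℓ.Prime → ℓ ∣ Q → ℓ ∣ q - 1 ∧ (ℓ - 1) ∣ q - 1 ∧ (ℓ = 2 → 4 ∣ q - 1)) →
  (∀ j : ℕ, ∑ c : ZMod Q, (χ⁻¹ c) ^ q ^ j * f c = 0) →
  ∀ a : (ZMod Q)ˣ, ∑ c ∈ univ.filter (fun c : (ZMod Q)ˣ => χ ((c * a⁻¹ : (ZMod Q)ˣ) : ZMod Q) ^ (q - 1) = 1),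
    χ⁻¹ (c : ZMod Q) * f (c : ZMod Q) = 0

open scoped Classical in
/-- A4. The kernel of `ZMod.unitsMap hQ` consists of the classes of `1 + M t`; since `Q ∣ M ^ 2`,
`(1 + M t) ^ E ≡ 1 + M E t ≡ 1 (mod Q)`, and `E ∣ q - 1`, so the kernel is contained in `kerPow χ (q - 1)`. Hence
`χ (c * a⁻¹) ^ (q - 1) = 1 ↔ ZMod.unitsMap hQ (c * a⁻¹) ∈ GG hQ χ (q - 1)`. Sort the sum by the image of `c`
(`Finset.sum_fiberwise_of_maps_to` or `Finset.sum_comm'`). -/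
def S_fiber : Prop := ∀ (k : Type) [Field k] (q u M E Q : ℕ) [NeZero Q] [NeZero M] (hQ : M ∣ Q)
  (χ : MulChar (ZMod Q) k) (f : ZMod Q → k), Q = M * E → E ∣ M → q - 1 = E * u →
  (∀ a : (ZMod Q)ˣ, ∑ c ∈ univ.filter (fun c : (ZMod Q)ˣ => χ ((c * a⁻¹ : (ZMod Q)ˣ) : ZMod Q) ^ (q - 1) = 1),
    χ⁻¹ (c : ZMod Q) * f (c : ZMod Q) = 0) →
  ∀ a : (ZMod Q)ˣ, ∑ b ∈ univ.filter (fun b : (ZMod M)ˣ => b ∈ GG hQ χ (q - 1)),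
    ∑ c ∈ univ.filter (fun c : (ZMod Q)ˣ => ZMod.unitsMap hQ c = ZMod.unitsMap hQ a * b),
      χ⁻¹ (c : ZMod Q) * f (c : ZMod Q) = 0

open scoped Classical in
/-- A5. The fiber is `c₀ (1 + M t)`, `t < E` (all different, all units since `E ∣ M`). Since `Q ∣ M ^ 2`,
`χ⁻¹ (1 + M t) = ξ ^ t` with `ξ = χ⁻¹ (1 + M)`, and `e (c₀ (1 + M t) y) = e (c₀ y) * e (M c₀ y) ^ t`. The sum over
`t < E` of `(ξ * e (M c₀ y)) ^ t` is `E` if this `E`-th root of unity is `1` and `0` otherwise. -/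
def S_eval : Prop := ∀ (k : Type) [Field k] (M E Q N : ℕ) [NeZero Q] [NeZero M] (hQ : M ∣ Q)
  (χ : MulChar (ZMod Q) k) (e : AddChar (ZMod Q) k) (w : ℕ → k), Q = M * E → E ∣ M →
  ∀ c₀ : (ZMod Q)ˣ,
    ∑ c ∈ univ.filter (fun c : (ZMod Q)ˣ => ZMod.unitsMap hQ c = ZMod.unitsMap hQ c₀),
      χ⁻¹ (c : ZMod Q) * (∑ y ∈ range N, w y * e ((c : ZMod Q) * (y : ZMod Q))) =
    (E : k) * χ⁻¹ (c₀ : ZMod Q) * ∑ y ∈ range N,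
      (if χ⁻¹ ((1 + M : ℕ) : ZMod Q) * e ((M : ZMod Q) * (c₀ : ZMod Q) * (y : ZMod Q)) = 1 then w y else 0) *
        e (c₀ : ZMod Q) ^ y

/-- A6. Put `N = N₁ Q`, `φ_c y = if ξ * e (M c y) = 1 then ψ₁ y else 0`. The terms `y = 0` vanish since `ξ ≠ 1`, and
`φ_c N = 0` as well. Reflect `y ↦ N - y`: `φ_(-c) (N - y) = ψ₁ (-1) * φ_c y`, `e (-c) ^ (N - y) = e c ^ y`,
`F ((N - y) / N) = (-1) ^ m * F (y / N) + c₁`, and `∑ φ_c y * e c ^ y = 0` by `sum_zero` (Poly.lean) with `L = N₁ E`,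
`W = M`: `φ_c (y + N₁ E) = φ_c y` as `M E = Q`. -/
def S_par : Prop := ∀ (k : Type) [Field k] (M E Q N₁ m : ℕ) [NeZero Q] (ψ₁ : MulChar (ZMod N₁) k)
  (e : AddChar (ZMod Q) k) (ξ c₁ : k) (F : k[X]), Q = M * E → N₁ ≠ 0 → ((N₁ * Q : ℕ) : k) ≠ 0 → ξ ≠ 1 →
  (∀ x : k, F.eval (1 - x) = (-1) ^ m * F.eval x + c₁) →
  ∀ c : ZMod Q, e c ^ (N₁ * E) ≠ 1 →
    VV M (N₁ * Q) ψ₁ e ξ F (-c) = ψ₁ (-1) * (-1) ^ m * VV M (N₁ * Q) ψ₁ e ξ F c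

/-- B. Multiply `∑ i, c i * V i s = 0` by `∏ i, B (Z_i)`, `Z_i = z i * θ ^ (x i * s)`:
`∑ i, c i * A i (Z_i) * ∏_{l ≠ i} B (Z_l) = 0` for all `s`. Expand (`Finset.prod_univ_sum` or `Finset.prod_sum`, over
exponents `κ ∈ I.pi (range (D + 1))`): a sum of `coefficient κ * ∏ z_l ^ κ_l * θ ^ (s * ∑ κ_l x_l)`, where the
coefficient for the index `i` is `c i * (A i).coeff (κ i) * ∏_{l ≠ i} B.coeff (κ l)`. Multiply by `θ⁻¹ ^ (X * s)`,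
`X = j x_{i₀} + ∑_{i ≠ i₀} D x_i`, and sum over `s < M`: by orthogonality only `κ` with `∑ κ_l x_l ≡ X` remain, by the
hypothesis only `κ = (j; D, ..., D)`. For `i ≠ i₀` its coefficient has the factor `(A i).coeff D = 0`. So
`c i₀ * (A i₀).coeff j * (B.coeff D) ^ (card I - 1) * ∏ z ^ κ * M = 0`. -/
def S_extract : Prop := ∀ (k : Type) [Field k] (ι : Type) [DecidableEq ι] (I : Finset ι) (i₀ : ι) (D M : ℕ) (θ : k)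
  (B : k[X]) (A : ι → k[X]) (x : ι → ℕ) (z : ι → k) (V : ι → ℕ → k) (c : ι → k),
  i₀ ∈ I → 0 < M → (M : k) ≠ 0 → IsPrimitiveRoot θ M → B.natDegree ≤ D → B.coeff D ≠ 0 →
  (∀ i ∈ I, (A i).degree < (D : ℕ)) → (∀ i ∈ I, z i ≠ 0) →
  (∀ i ∈ I, ∀ s : ℕ, B.eval (z i * θ ^ (x i * s)) * V i s = (A i).eval (z i * θ ^ (x i * s))) →
  (∀ s : ℕ, ∑ i ∈ I, c i * V i s = 0) →
  (∀ κ : ι → ℕ, (∀ i ∈ I, κ i ≤ D) → ∀ j < D,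
    ∑ i ∈ I, κ i * x i ≡ j * x i₀ + ∑ i ∈ I.erase i₀, D * x i [MOD M] →
    κ i₀ = j ∧ ∀ i ∈ I, i ≠ i₀ → κ i = D) →
  ∀ j < D, c i₀ * (A i₀).coeff j = 0

/-- C1. Pigeonhole: send `w` to the numbers `⌊T * (w * h).val / M⌋ < T`, `h ∈ I`; there are at most `T ^ card I`
values, so some value is taken by more than `Deg.card` elements. Fix one, `w'`; the differences `w - w'` are more than
`Deg.card` elements, one of them is not in `Deg`. For it `(w h).val` and `(w' h).val` differ by less than `M / T`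
(`ZMod.natAbs_valMinAbs_le` or `ZMod.valMinAbs` has the least absolute value). -/
def S_pigeon : Prop := ∀ (M T : ℕ) [NeZero M] (I : Finset (ZMod M)ˣ) (Deg : Finset (ZMod M)), 0 < T →
  T ^ I.card * Deg.card < M →
  ∃ w : ZMod M, w ∉ Deg ∧ ∀ h ∈ I, (w * (h : ZMod M)).valMinAbs.natAbs * T < M

/-- C2. Let `v h = (w * h).valMinAbs` for `h ∈ G`. Replace `w` by `w * γ₀` such that `|v 1|` is maximal (the
hypotheses are kept, and `w ≠ 0` gives `v 1 ≠ 0`). For `γ ∈ G` put `ν_γ h = v 1 * v (γ h) - v γ * v h`.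
If `∑ |κ h| ≤ T` and `∑ κ h * h = 0` then `∑ κ h * v (γ h)` is divisible by `M` and has absolute value `< M`, so it
is `0` for all `γ ∈ G`, hence `∑ κ h * ν_γ h = 0`. `ν_γ 1 = 0`, `ν_γ (-h) = -ν_γ h` (as `2 |v| < M`). For
`h ≠ 1, -1`: `ν_(h⁻¹) h = v 1 ^ 2 - v h⁻¹ * v h ≠ 0`, since equality and maximality of `|v 1|` give `v h = v 1` or
`v h = - v 1`, i.e. `w h = w` or `w h = -w`. Take `lam h = ∑_γ ν_γ h * T₀ ^ (index of γ)` for an integer `T₀` that is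
not a root of the finitely many nonzero polynomials `∑_γ ν_γ h X ^ (index of γ)`, `h ∈ G`, `h ≠ 1, -1`. -/
def S_lam : Prop := ∀ (M T : ℕ) [NeZero M] (G : Subgroup (ZMod M)ˣ) (w : ZMod M), 2 ≤ T → w ≠ 0 →
  (∀ h ∈ G, (w * (h : ZMod M)).valMinAbs.natAbs * T < M) →
  (∀ h ∈ G, w * (h : ZMod M) = w ∨ w * (h : ZMod M) = -w → h = 1 ∨ h = -1) → (-1 : (ZMod M)ˣ) ∈ G →
  ∃ lam : (ZMod M)ˣ → ℤ, lam 1 = 0 ∧ (∀ h ∈ G, lam (-h) = - lam h) ∧ (∀ h ∈ G, h ≠ 1 → h ≠ -1 → lam h ≠ 0) ∧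
    ∀ κ : (ZMod M)ˣ → ℤ, (∀ h, h ∉ G → κ h = 0) → ∑ h : (ZMod M)ˣ, |κ h| ≤ (T : ℤ) →
      ∑ h : (ZMod M)ˣ, ((κ h : ℤ) : ZMod M) * (h : ZMod M) = 0 → ∑ h : (ZMod M)ˣ, κ h * lam h = 0

/-- U. Put `κ' h = κ h - D` for `h ∈ I`, `h ≠ 1`, `κ' 1 = κ 1 - j`, `κ' = 0` outside `I`. Then `∑ |κ'| ≤ card I * D ≤ T`
and `∑ κ' h * h = 0`, so `∑_{h ∈ I, h ≠ 1} (κ h - D) * lam h = 0` with `lam h > 0` and `κ h - D ≤ 0`: all `κ h = D`.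
Then `(κ 1 - j) = 0` in `ZMod M` and `|κ 1 - j| ≤ D < M`. -/
def S_uniq : Prop := ∀ (M D T : ℕ) [NeZero M] (G : Subgroup (ZMod M)ˣ) (lam : (ZMod M)ˣ → ℤ) (I : Finset (ZMod M)ˣ),
  lam 1 = 0 → 1 ∈ I → (∀ h ∈ I, h ∈ G) → (∀ h ∈ I, h ≠ 1 → 0 < lam h) → I.card * D ≤ T → D < M →
  (∀ κ : (ZMod M)ˣ → ℤ, (∀ h, h ∉ G → κ h = 0) → ∑ h : (ZMod M)ˣ, |κ h| ≤ (T : ℤ) →
      ∑ h : (ZMod M)ˣ, ((κ h : ℤ) : ZMod M) * (h : ZMod M) = 0 → ∑ h : (ZMod M)ˣ, κ h * lam h = 0) →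
  ∀ κ : (ZMod M)ˣ → ℕ, (∀ h ∈ I, κ h ≤ D) → ∀ j < D,
    ∑ h ∈ I, κ h * (h : ZMod M).val ≡ j * ((1 : (ZMod M)ˣ) : ZMod M).val +
      ∑ h ∈ I.erase 1, D * (h : ZMod M).val [MOD M] →
    κ 1 = j ∧ ∀ h ∈ I, h ≠ 1 → κ h = D

open scoped Classical in
/-- C3. `Deg = {w : ZMod M | some prime ℓ ∣ M has ℓ ^ (v_ℓ(M) - [ℓ = 2]) ∣ w.val}` has at most
`∑_ℓ M / ℓ ^ (v_ℓ(M) - [ℓ = 2])` elements (a union over the primes; multiples of a divisor `d` of `M` below `M`: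
`M / d`). With `a_ℓ = ℓ ^ v_ℓ(M)`, `A * card Deg ≤ ∑_ℓ A M c_ℓ / a_ℓ < M`, `c_2 = 2`, `c_ℓ = 1` otherwise. -/
def S_deg : Prop := ∀ (M A : ℕ) [NeZero M], M ≠ 1 → 0 < A →
  (∀ ℓ : ℕ, ℓ.Prime → ℓ ∣ M → A * M.primeFactors.card * (if ℓ = 2 then 2 else 1) < ℓ ^ M.factorization ℓ) →
  A * (univ.filter (fun w : ZMod M => ∃ ℓ : ℕ, ℓ.Prime ∧ ℓ ∣ M ∧
    ℓ ^ (M.factorization ℓ - (if ℓ = 2 then 1 else 0)) ∣ w.val)).card < M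

/-- C4. `M ∣ w.val * x.val`, and `v_ℓ(w.val) < v_ℓ(M) - [ℓ = 2]`, so `v_ℓ(x.val) ≥ 1 + [ℓ = 2]`. (If `w.val = 0`
the hypothesis on `w` fails.) -/
def S_nondeg : Prop := ∀ (M : ℕ) [NeZero M] (w x : ZMod M), w * x = 0 →
  (∀ ℓ : ℕ, ℓ.Prime → ℓ ∣ M → ¬ ℓ ^ (M.factorization ℓ - (if ℓ = 2 then 1 else 0)) ∣ w.val) →
  ∀ ℓ : ℕ, ℓ.Prime → ℓ ∣ M → ℓ ∣ x.val ∧ (ℓ = 2 → 4 ∣ M → 4 ∣ x.val)

/-- D. Suppose `M ∤ x - 1`; let `ℓ ∣ M` be a prime with `t = v_ℓ(x - 1) < v_ℓ(M)`. Here `t ≥ 1` (`t ≥ 2` if `ℓ = 2`).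
Let `ε = v_ℓ(E) = v_ℓ(q - 1)`, `K = v_ℓ(Q) = v_ℓ(M) + ε`, `Q = ℓ ^ K * Q'`, and `n = (q - 1) * Q' * ℓ ^ (K - 1 - t - ε)`.
By `lte` `v_ℓ(x ^ n - 1) = t + v_ℓ(n) = K - 1`, and `x ^ n ≡ 1 (mod Q')` by `exp_dvd` (`x` is prime to `Q` since
`χ x ≠ 0`). So `x ^ n ≡ 1 + (Q / ℓ) * v (mod Q)` with `ℓ ∤ v`, and `χ x ^ n = χ (1 + Q / ℓ) ^ v` (as `ℓ ^ 2 ∣ Q`),
which is not `1` because `χ (1 + Q / ℓ)` is an `ℓ`-th root of unity other than `1`. But `χ x ^ (q - 1) = 1`. -/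
def S_ker : Prop := ∀ (k : Type) [Field k] (M E Q q u : ℕ) [NeZero Q] (χ : MulChar (ZMod Q) k),
  1 < q → Q = M * E → q - 1 = E * u → u.Coprime E → E ∣ M →
  (∀ ℓ : ℕ, ℓ.Prime → ℓ ∣ M → ℓ ∣ E ∧ (ℓ - 1) ∣ q - 1) → (2 ∣ M → 4 ∣ E) →
  (∀ ℓ : ℕ, ℓ.Prime → ℓ ∣ Q → χ ((1 + Q / ℓ : ℕ) : ZMod Q) ≠ 1) →
  ∀ x : ℤ, χ (x : ZMod Q) ^ (q - 1) = 1 →
    (∀ ℓ : ℕ, ℓ.Prime → ℓ ∣ M → (ℓ : ℤ) ∣ x - 1 ∧ (ℓ = 2 → (4 : ℤ) ∣ x - 1)) → (M : ℤ) ∣ x - 1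

/-- E. `e M` is a primitive `E`-th root of unity, so `ξ⁻¹ = e M ^ b` for some `b < E`; by the Chinese remainder theorem
there is `y₀ < N₁ E` with `y₀ ≡ b (mod E)`, `y₀ ≡ 1 (mod N₁)`. -/
def S_y0 : Prop := ∀ (k : Type) [Field k] (M E Q N₁ : ℕ) [NeZero Q] (e : AddChar (ZMod Q) k) (ξ : k),
  IsPrimitiveRoot (e 1) Q → Q = M * E → N₁.Coprime E → 0 < N₁ → ξ ^ E = 1 →
  ∃ y₀ < N₁ * E, y₀.Coprime N₁ ∧ ξ * e ((M : ZMod Q) * 1 * (y₀ : ZMod Q)) = 1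

/-- G. Put `y i = K₀ ^ ((s + 1) * c) ^ i`. The `s + 1` intervals `(y i, y (i + 1)]`, `0 ≤ i ≤ s`, are disjoint and `N`
has at most `s` prime factors, so for some `i` no `ℓ ^ v_ℓ(N)` (`ℓ ∣ N` prime) lies in the `i`-th interval. Let `N₁` be
the product of those with `ℓ ^ v_ℓ(N) ≤ y i` and `Q` the product of the others. `N₁ ≤ y i ^ s`, so
`(K₀ * N₁) ^ c ≤ y i ^ ((s + 1) * c) = y (i + 1) < ℓ ^ v_ℓ(Q)` for `ℓ ∣ Q`. `Q ≠ 1`, otherwise `N ≤ y (s + 1) ^ s`. -/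
def S_gap : Prop := ∀ (s K₀ c N : ℕ), N.primeFactors.card ≤ s → 2 ≤ K₀ → 1 ≤ c →
  K₀ ^ (s * ((s + 1) * c) ^ (s + 1)) < N →
  ∃ N₁ Q : ℕ, N = N₁ * Q ∧ N₁.Coprime Q ∧ Q ≠ 1 ∧
    ∀ ℓ : ℕ, ℓ.Prime → ℓ ∣ Q → (K₀ * N₁) ^ c < ℓ ^ Q.factorization ℓ

end Pool.Agent.Q23.EG
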