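import Pool.Agent.Q23.EG.Main
import Pool.Agent.Q23.EF.Unit
import Pool.Agent.H178.GC.Split

/-!
# The values are units
-/

set_option autoImplicit false

namespace Pool.Agent.Q23.EG

open Finset Polynomial Pool.Agent.Y18.GX Pool.Agent.H178.GC Pool.Agent.Q23.EF

lemma T_lt {M r T : ℕ} (hM : 2 < M) (hr1 : 1 ≤ r) (hsize : ∀ ℓ : ℕ, ℓ.Prime → ℓ ∣ M →
      T ^ r * M.primeFactors.card * (if ℓ = 2 then 2 else 1) < ℓ ^ M.factorization ℓ) : T < M := by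
  obtain ⟨ℓ, hℓ, hℓM⟩ := Nat.exists_prime_and_dvd (show M ≠ 1 by omega)
  have h1 := hsize ℓ hℓ hℓM
  have h2 : ℓ ^ M.factorization ℓ ≤ M := Nat.le_of_dvd (by omega) (Nat.ordProj_dvd M ℓ)
  have h3 : T ≤ T ^ r := Nat.le_self_pow (by omega) T
  have h4 : 0 < M.primeFactors.card := by
    rw [card_pos]
    exact ⟨ℓ, Nat.mem_primeFactors.2 ⟨hℓ, hℓM, by omega⟩⟩
  have h5 : T ^ r ≤ T ^ r * M.primeFactors.card * (if ℓ = 2 then 2 else 1) := by
    rw [mul_assoc]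
    apply Nat.le_mul_of_pos_right
    apply Nat.mul_pos h4
    split_ifs <;> norm_num
  omega

lemma one_add_sq {Q d : ℕ} (hd : Q ∣ d ^ 2) (j : ℕ) :
    ((1 + d : ℕ) : ZMod Q) ^ j = ((1 + j * d : ℕ) : ZMod Q) := by
  have h0 : ((d : ℕ) : ZMod Q) ^ 2 = 0 := by
    rw [← Nat.cast_pow, ZMod.natCast_eq_zero_iff]
    exact hd
  have h1 := one_add_pow_of_sq ((d : ℕ) : ZMod Q) h0 j
  push_cast
  rw [h1]

theorem unitG (J1 : S_gauss) (J2 : S_frob) (J3 : S_trace) (J4 : S_fiber) (J5 : S_eval) (J6 : S_par)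
    (J7 : S_extract) (J8 : S_pigeon) (J9 : S_lam) (J10 : S_uniq) (J11 : S_deg) (J12 : S_nondeg) (J13 : S_ker)
    (J14 : S_y0) {p : ℕ} (hp : p.Prime) (hp2 : p ≠ 2) {g u M E Q N₁ m r R : ℕ} (D : Num (p ^ g) u M E Q)
    (hpQ : ¬ p ∣ Q) (hpN : ¬ p ∣ N₁) (hN₁ : N₁.Coprime Q)
    (hexp : ∀ x : ℕ, x.Coprime N₁ → x ^ (p ^ g - 1) ≡ 1 [MOD N₁]) (hm1 : 1 ≤ m) (hmp : m ≤ p - 1)
    (hR : R ∣ M) (hRp : ∀ ℓ : ℕ, ℓ.Prime → ℓ ∣ M → ℓ ∣ R) (hR4 : 2 ∣ M → 4 ∣ R) (hr : R.totient ≤ 2 * r)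
    (hsize : ∀ ℓ : ℕ, ℓ.Prime → ℓ ∣ M →
      (r * (m * (N₁ * E))) ^ r * M.primeFactors.card * (if ℓ = 2 then 2 else 1) < ℓ ^ M.factorization ℓ)
    (ψ : DirichletCharacter ℂ (N₁ * Q)) (hc : Q ∣ ψ.conductor) (hpar : ψ (-1) = (-1) ^ m) :
    Pool.Agent.Y18.GX.IsUnitAt p (valSum p m ψ) := by
  have : Fact p.Prime := ⟨hp⟩
  have hM2 := D.hM
  have hN0 : N₁ ≠ 0 := by
    rintro rfl
    exact hpN (dvd_zero _)
  have hQ0 : Q ≠ 0 := by
    rintro rfl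
    exact hpQ (dvd_zero _)
  have iQ : NeZero Q := ⟨hQ0⟩
  have iM : NeZero M := ⟨by omega⟩
  have hNN : N₁ * Q ≠ 0 := mul_ne_zero hN0 hQ0
  have hpNQ : ¬ p ∣ N₁ * Q := fun h => (hp.dvd_mul.1 h).elim hpN hpQ
  have hq1 : 1 ≤ p ^ g := Nat.one_le_pow _ _ hp.pos
  have hpq : ¬ p ∣ p ^ g - 1 := by
    intro h7
    have hg0 : g ≠ 0 := by
      rintro rfl
      have := D.hq1
      rw [pow_zero] at this
      omega
    have h11 : p ∣ p ^ g := dvd_pow_self p hg0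
    have h12 := (Nat.dvd_sub h11 h7)
    have h13 : p ^ g - (p ^ g - 1) = 1 := by omega
    rw [h13] at h12
    exact hp.one_lt.ne' (Nat.dvd_one.1 h12)
  have hR0 : R ≠ 0 := by
    rintro rfl
    have := Nat.eq_zero_of_zero_dvd hR
    omega
  have hr1 : 1 ≤ r := by
    have := Nat.totient_pos.2 (Nat.pos_of_ne_zero hR0)
    omega
  -- the values near `1`
  have hprimψ : ∀ ℓ : ℕ, ℓ.Prime → ℓ ∣ Q → ψ ((1 + N₁ * (Q / ℓ) : ℕ) : ZMod (N₁ * Q)) ≠ 1 := by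
    intro ℓ hℓ hℓQ
    have h2 := D.sq_dvd hℓ hℓQ
    set K := Q.factorization ℓ with hK
    have hK2 : 2 ≤ K := (hℓ.pow_dvd_iff_le_factorization hQ0).1 h2
    obtain ⟨Q', hQ'⟩ := Nat.ordProj_dvd Q ℓ
    rw [← hK] at hQ'
    have hcop : Q'.Coprime ℓ := by
      rw [Nat.coprime_comm, Nat.Prime.coprime_iff_not_dvd hℓ]
      rintro ⟨v, hv⟩
      have h3 : ℓ ^ (K + 1) ∣ Q := ⟨v, by rw [hQ', hv, pow_succ]; ring⟩
      have h4 := (hℓ.pow_dvd_iff_le_factorization hQ0).1 h3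
      omega
    have hQ'0 : Q' ≠ 0 := by
      rintro rfl
      rw [mul_zero] at hQ'
      exact hQ0 hQ'
    have hN₁ℓ : N₁.Coprime ℓ := Nat.Coprime.coprime_dvd_right hℓQ hN₁
    have h5 := prim_val (N := N₁ * Q) (N₁ := N₁ * Q') (ℓ := ℓ) (K := K) (by rw [mul_assoc, mul_comm Q', ← hQ']) hℓ
      (hN₁ℓ.mul_left hcop) hK2 (mul_ne_zero hN0 hQ'0) ψ ((Nat.ordProj_dvd Q ℓ).trans hc)
    have h6 : N₁ * Q' * ℓ ^ (K - 1) = N₁ * (Q / ℓ) := by
      have h7 : Q / ℓ = Q' * ℓ ^ (K - 1) := by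
        have h8 : Q = ℓ * (Q' * ℓ ^ (K - 1)) := by
          have h9 : ℓ ^ K = ℓ * ℓ ^ (K - 1) := by
            rw [← pow_succ']
            congr 1
            omega
          rw [h9] at hQ'
          rw [hQ']
          ring
        have h10 := Nat.mul_div_cancel_left (Q' * ℓ ^ (K - 1)) hℓ.pos
        rwa [← h8] at h10
      rw [h7]
      ring
    rwa [h6] at h5
  have hψ1 : ψ ≠ 1 := by
    have : NeZero (N₁ * Q) := ⟨hNN⟩
    intro h
    rw [h, DirichletCharacter.conductor_one] at hc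
    have h6 := Nat.dvd_one.1 hc
    have h7 := Nat.le_of_dvd (Nat.pos_of_ne_zero hQ0) D.dvd
    omega
  -- `p` does not divide `φ (N)`
  have hφ : ¬ p ∣ (N₁ * Q).totient := by
    intro h
    have : NeZero (N₁ * Q) := ⟨hNN⟩
    rw [← ZMod.card_units_eq_totient, ← Nat.card_eq_fintype_card] at h
    obtain ⟨U, hU⟩ := exists_prime_orderOf_dvd_card' p h
    have h6 : U ^ ((p ^ g - 1) * Q) = 1 := by
      apply Units.ext
      rw [Units.val_pow_eq_pow_val, Units.val_one]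
      refine exp_unit hNN (fun x hx => ?_) U
      refine (Nat.modEq_and_modEq_iff_modEq_mul hN₁).1 ⟨?_, ?_⟩
      · have h8 := (hexp x (Nat.Coprime.coprime_mul_right_right hx)).pow Q
        rwa [one_pow, ← pow_mul] at h8
      · exact exp_dvd (fun ℓ hℓ hℓQ => (D.trace hℓ hℓQ).2.1) (Nat.Coprime.coprime_mul_left_right hx)
    have h7 : p ∣ (p ^ g - 1) * Q := by
      have h14 := orderOf_dvd_of_pow_eq_one h6
      rwa [hU] at h14
    exact (hp.dvd_mul.1 h7).elim hpq hpQ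
  refine unit_gen' hp ψ hpNQ hφ hpar hm1 (by omega) ?_ (sum_char hNN ψ hψ1)
  intro k _ _ χ₀ hχ₀ hχpar
  -- the algebraic closure
  have iC : CharP (AlgebraicClosure k) p := charP_of_injective_algebraMap
    (algebraMap k (AlgebraicClosure k)).injective p
  set χ : MulChar (ZMod (N₁ * Q)) (AlgebraicClosure k) := χ₀.ringHomComp (algebraMap k (AlgebraicClosure k)) with hχd
  have hχa : ∀ a, χ a = algebraMap k (AlgebraicClosure k) (χ₀ a) := fun a => rfl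
  have hχ : ∀ a, ψ a ≠ 1 → χ a ≠ 1 := by
    intro a ha h
    apply hχ₀ a ha
    rw [hχa, map_eq_one_iff _ (algebraMap k (AlgebraicClosure k)).injective] at h
    exact h
  have hχpar' : χ (-1) = (-1) ^ m := by
    rw [hχa, hχpar]
    simp
  have hψ₁ : ∀ a, c1 hN₁ χ a ^ p ^ g = c1 hN₁ χ a := fun a => frob_char hN0 hq1 hexp _ a
  have hprim : ∀ ℓ : ℕ, ℓ.Prime → ℓ ∣ Q → c2 hN₁ χ ((1 + Q / ℓ : ℕ) : ZMod Q) ≠ 1 := by
    intro ℓ hℓ hℓQ h
    apply hχ _ (hprimψ ℓ hℓ hℓQ)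
    rw [cc_nat hN₁ χ]
    have e1 : ((1 + N₁ * (Q / ℓ) : ℕ) : ZMod N₁) = 1 := by
      push_cast
      simp
    have h2 : Q ∣ (Q / ℓ) ^ 2 := by
      obtain ⟨v, hv⟩ := D.sq_dvd hℓ hℓQ
      have h3 : Q / ℓ = ℓ * v := by
        rw [hv, sq, mul_assoc]
        exact Nat.mul_div_cancel_left _ hℓ.pos
      rw [h3, hv]
      exact ⟨v, by ring⟩
    rw [e1, map_one, one_mul, ← one_add_sq h2, map_pow, h, one_pow]
  have hM : Nat.card (GG D.dvd (c2 hN₁ χ) (p ^ g - 1)) ≤ 2 * r :=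
    (D.card_le J13 (c2 hN₁ χ) hprim hR hR0 hRp hR4).trans hr
  constructor
  · intro hS
    have hS' : ∑ y ∈ range (N₁ * Q), c1 hN₁ χ (y : ZMod N₁) * c2 hN₁ χ (y : ZMod Q) *
        Polynomial.aeval ((y : AlgebraicClosure k) / (N₁ * Q : ℕ)) (FF m) = 0 := by
      have h1 := congrArg (algebraMap k (AlgebraicClosure k)) hS
      rw [map_sum, map_zero] at h1
      rw [← h1]
      refine sum_congr rfl fun y _ => ?_
      rw [map_mul, ← hχa, cc_nat hN₁ χ, ← Polynomial.aeval_algebraMap_apply]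
      congr 2
      rw [map_div₀, map_natCast, map_natCast]
    refine coreG J1 J2 J3 J4 J5 J6 J7 J8 J9 J10 J11 J12 J13 J14 hp2 D hpQ hpN hN₁ (c1 hN₁ χ) hψ₁ (c2 hN₁ χ) hprim
      (FF m) _ (fun x => FF_aeval_refl m x) (FF_natDegree m) ?_ hm1 (by omega) ?_ hM hsize hS'
    · rw [FF_coeff m hm1]
      push_cast
      intro h
      have h1 : p ∣ m.factorial := (CharP.cast_eq_zero_iff (AlgebraicClosure k) p _).1 h
      have := (hp.dvd_factorial).1 h1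
      omega
    · rw [← cc_neg hN₁ χ, hχpar']
  · intro _ h
    have h1 : χ ((p : ℕ) : ZMod (N₁ * Q)) = 1 := by
      rw [hχa]
      rw [h, map_one]
    rw [cc_nat hN₁ χ] at h1
    have hpc : p.Coprime N₁ := (Nat.Prime.coprime_iff_not_dvd hp).2 hpN
    have h2 : c1 hN₁ χ ((p : ℕ) : ZMod N₁) ^ (p ^ g - 1) = 1 := by
      have h3 := hexp p hpc
      rw [← ZMod.natCast_eq_natCast_iff, Nat.cast_pow, Nat.cast_one] at h3
      rw [← map_pow, h3, map_one]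
    have h3 : c2 hN₁ χ ((p : ℕ) : ZMod Q) ^ (p ^ g - 1) = 1 := by
      have h4 : (c1 hN₁ χ ((p : ℕ) : ZMod N₁) * c2 hN₁ χ ((p : ℕ) : ZMod Q)) ^ (p ^ g - 1) = 1 := by
        rw [h1, one_pow]
      rwa [mul_pow, h2, one_mul] at h4
    have h4 : (M : ℤ) ∣ ((p ^ g : ℕ) : ℤ) - 1 := by
      refine J13 (AlgebraicClosure k) M E Q (p ^ g) u (c2 hN₁ χ) D.hq1 D.hQ D.hq D.hu D.hEM D.hp D.h4 hprim _ ?_ ?_
      · rw [Int.cast_natCast, Nat.cast_pow, map_pow, ← pow_mul, mul_comm, pow_mul, h3, one_pow]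
      · intro ℓ hℓ hℓM
        have h5 := D.trace hℓ (hℓM.trans D.dvd)
        have hc : ((p ^ g - 1 : ℕ) : ℤ) = ((p ^ g : ℕ) : ℤ) - 1 := by
          rw [Nat.cast_sub hq1, Nat.cast_one]
        rw [← hc]
        exact ⟨by exact_mod_cast h5.1, fun h6 => by exact_mod_cast h5.2.2 h6⟩
    have h5 : M ∣ p ^ g - 1 := by
      have hc : ((p ^ g - 1 : ℕ) : ℤ) = ((p ^ g : ℕ) : ℤ) - 1 := by
        rw [Nat.cast_sub hq1, Nat.cast_one]
      rw [← hc] at h4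
      exact_mod_cast h4
    rw [D.hq] at h5
    have h6 : M.Coprime u := by
      rw [Nat.coprime_iff_gcd_eq_one]
      by_contra hcon
      obtain ⟨ℓ, hℓ, hℓg⟩ := Nat.exists_prime_and_dvd hcon
      have e1 := hℓg.trans (Nat.gcd_dvd_left _ _)
      have e2 := hℓg.trans (Nat.gcd_dvd_right _ _)
      have e3 := Nat.dvd_gcd e2 (D.hp ℓ hℓ e1).1
      rw [D.hu] at e3
      exact hℓ.one_lt.ne' (Nat.dvd_one.1 e3)
    have h7 : M ∣ E := Nat.Coprime.dvd_of_dvd_mul_right h6 h5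
    have h8 := Nat.le_of_dvd D.E0 h7
    have h9 := T_lt hM2 hr1 hsize
    have h10 : E ≤ r * (m * (N₁ * E)) := by
      calc E = 1 * (1 * (1 * E)) := by ring
        _ ≤ r * (m * (N₁ * E)) :=
          Nat.mul_le_mul hr1 (Nat.mul_le_mul hm1 (Nat.mul_le_mul_right _ (Nat.pos_of_ne_zero hN0)))
    omega

end Pool.Agent.Q23.EG
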